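import Pool.Agent.W719.BS.Stubs
import Pool.Agent.H550R3.Jones.Main

set_option autoImplicit false

namespace Pool.Agent.W719.BS

open Matrix Finset Filter Topology Pool.Agent.H550R3.Jones
open scoped Kronecker

theorem crossP_eig (u : ℂ) (hu : Gen u) (N : ℕ) {φ ψ} (hd : IsDec u N φ ψ) (d : Fin N) :
    crossP N (u ^ 2) * φ d = eig N (u ^ 2) (N - 1 - d) (.twist true) • φ d := by
  have hu0 : u ≠ 0 := hu.1
  rw [(Pool.Agent.H559R3.J.taskCross u hu N).1, Matrix.smul_mul, hd.eig d, smul_smul]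
  congr 1
  unfold lam eig
  have h1 : N - 1 - (N - 1 - (d : ℕ)) = d := by have := d.2; omega
  rw [h1]
  have h2 : ((cc N d : ℕ) : ℤ) = 2 * ((N - 1 - (d : ℕ) : ℕ) : ℤ) + 1 := by
    unfold cc; have := d.2; omega
  have h3 : ((((cc N d : ℕ) : ℤ) ^ 2 - 1) / 2) =
      2 * (((N - 1 - (d : ℕ) : ℕ) : ℤ) * (((N - 1 - (d : ℕ) : ℕ) : ℤ) + 1)) := by
    rw [h2]
    have : (2 * ((N - 1 - (d : ℕ) : ℕ) : ℤ) + 1) ^ 2 - 1 =
      2 * (2 * (((N - 1 - (d : ℕ) : ℕ) : ℤ) * (((N - 1 - (d : ℕ) : ℕ) : ℤ) + 1))) := by ring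
    rw [this]; simp
  rw [h3, mul_left_comm, ← zpow_add₀ hu0, ← zpow_natCast u 2, ← _root_.zpow_mul]
  congr 2
  push_cast; ring

theorem Rhi_eig (u : ℂ) (hu : Gen u) (N : ℕ) {φ ψ} (hd : IsDec u N φ ψ) (d : Fin N) :
    Rhi u (irr (u ^ 2) N) (irr (u ^ 2) N) * φ d = (lam u N d)⁻¹ • φ d := by
  have hv0 : u ^ 2 ≠ 0 := pow_ne_zero 2 hu.1
  have hirr : IsMod (u ^ 2) (irr (u ^ 2) N) := (Pool.Agent.H345J.taskMod (u ^ 2) hv0).1 N
  have hl : lam u N d ≠ 0 := by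
    unfold lam
    exact mul_ne_zero (pow_ne_zero _ (by norm_num)) (zpow_ne_zero _ hu.1)
  have h := (Pool.Agent.H345J.taskInv u hu (Fin N) (Fin N) _ _ hirr hirr).1
  have h2 := congrArg (fun A => Rhi u (irr (u ^ 2) N) (irr (u ^ 2) N) * A) (hd.eig d)
  simp only [← Matrix.mul_assoc, h, Matrix.one_mul, Matrix.mul_smul] at h2
  conv_rhs => rw [h2, smul_smul, inv_mul_cancel₀ hl, one_smul]

theorem sq_zpow (u : ℂ) (z : ℤ) : (u ^ 2) ^ z = u ^ (2 * z) := by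
  rw [_root_.zpow_mul]; norm_cast

theorem crossN_eig (u : ℂ) (hu : Gen u) (N : ℕ) {φ ψ} (hd : IsDec u N φ ψ) (d : Fin N) :
    crossN N (u ^ 2) * φ d = eig N (u ^ 2) (N - 1 - d) (.twist false) • φ d := by
  have hu0 : u ≠ 0 := hu.1
  rw [(Pool.Agent.H559R3.J.taskCross u hu N).2, Matrix.smul_mul, Rhi_eig u hu N hd d, smul_smul]
  congr 1
  unfold lam eig
  have h1 : N - 1 - (N - 1 - (d : ℕ)) = d := by have := d.2; omega
  rw [h1]
  have h2 : ((cc N d : ℕ) : ℤ) = 2 * ((N - 1 - (d : ℕ) : ℕ) : ℤ) + 1 := by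
    unfold cc; have := d.2; omega
  have h3 : ((((cc N d : ℕ) : ℤ) ^ 2 - 1) / 2) =
      2 * (((N - 1 - (d : ℕ) : ℕ) : ℤ) * (((N - 1 - (d : ℕ) : ℕ) : ℤ) + 1)) := by
    rw [h2]
    have : (2 * ((N - 1 - (d : ℕ) : ℕ) : ℤ) + 1) ^ 2 - 1 =
      2 * (2 * (((N - 1 - (d : ℕ) : ℕ) : ℤ) * (((N - 1 - (d : ℕ) : ℕ) : ℤ) + 1))) := by ring
    rw [this]; simp
  have h4 : ((-1 : ℂ) ^ (d : ℕ))⁻¹ = (-1) ^ (d : ℕ) := by
    rw [← inv_pow]; norm_num
  simp only []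
  rw [h3, mul_inv, h4, ← _root_.zpow_neg, mul_left_comm, ← zpow_add₀ hu0]
  rw [sq_zpow u (-(_ - _))]
  congr 2
  ring

theorem op_eig (hROT : S_ROT) (hVEC : S_VEC) (hP : S_KAPP) (hN : S_KAPN) (u : ℂ) (hu : Gen u)
    (N : ℕ) {φ ψ} (hd : IsDec u N φ ψ) (d : Fin N) (p : Piece) :
    op N (u ^ 2) p * φ d = eig N (u ^ 2) (N - 1 - d) p • φ d := by
  match p with
  | .clasp true => exact hP hROT hVEC u hu N φ ψ hd d
  | .clasp false => exact hN hROT hVEC u hu N φ ψ hd d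
  | .twist true => exact crossP_eig u hu N hd d
  | .twist false => exact crossN_eig u hu N hd d

theorem prod_eig (hROT : S_ROT) (hVEC : S_VEC) (hP : S_KAPP) (hN : S_KAPN) (u : ℂ) (hu : Gen u)
    (N : ℕ) {φ ψ} (hd : IsDec u N φ ψ) (d : Fin N) (w : List Piece) :
    (w.map (op N (u ^ 2))).prod * φ d = (w.map (eig N (u ^ 2) (N - 1 - d))).prod • φ d := by
  induction w with
  | nil => simp
  | cons p w ih =>
    rw [List.map_cons, List.prod_cons, Matrix.mul_assoc, ih, Matrix.mul_smul,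
      op_eig hROT hVEC hP hN u hu N hd d p, smul_smul, List.map_cons, List.prod_cons, mul_comm]

/-- `{N (2c+1)} / {N}` -/
noncomputable def UU (N : ℕ) (v : ℂ) (c : ℕ) : ℂ :=
  ∑ j ∈ range (2 * c + 1), v ^ ((N : ℤ) * (2 * c - 2 * (j : ℤ)))

theorem UU_eq (N : ℕ) (v : ℂ) (hv : v ≠ 0) (c : ℕ) :
    br v N * UU N v c = br v ((N : ℤ) * (2 * c + 1 : ℕ)) := by
  have h := Top_qdim (v ^ (N : ℤ)) (zpow_ne_zero _ hv) (2 * c + 1)
  have h1 : ∑ x : Fin (2 * c + 1), (v ^ (N : ℤ)) ^ (irr (v ^ (N : ℤ)) (2 * c + 1)).wt x =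
      UU N v c := by
    unfold UU irr
    rw [← Fin.sum_univ_eq_sum_range (fun j => v ^ ((N : ℤ) * (2 * c - 2 * (j : ℤ)))) (2 * c + 1)]
    refine sum_congr rfl fun x _ => ?_
    rw [← _root_.zpow_mul]
    congr 2
    push_cast
    ring
  rw [h1] at h
  have h2 : br (v ^ (N : ℤ)) 1 = br v N := by unfold br; simp
  have h3 : br (v ^ (N : ℤ)) ((2 * c + 1 : ℕ) : ℤ) = br v ((N : ℤ) * (2 * c + 1 : ℕ)) := by
    unfold br
    rw [← _root_.zpow_mul, ← _root_.zpow_mul]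
    congr 2
  rw [h2, h3] at h
  exact h

theorem JL_gen (hROT : S_ROT) (hVEC : S_VEC) (hP : S_KAPP) (hN : S_KAPN) (hB : S_BELT)
    (hT : S_TR) (u : ℂ) (hu : Gen u) (N : ℕ) (h : 0 < N) (w : List Piece) :
    JL w N (u ^ 2) = (u ^ 2) ^ (-(2 * ((N : ℤ) ^ 2 - 1))) *
      ∑ c ∈ range N, UU N (u ^ 2) c * (w.map (eig N (u ^ 2) c)).prod := by
  have hv0 : u ^ 2 ≠ 0 := pow_ne_zero 2 hu.1
  obtain ⟨φ, ψ, hd⟩ := Pool.Agent.H897R.J.taskDec Pool.Agent.H345J.taskMod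
    Pool.Agent.H345J.taskInt u hu N
  have hbN : br (u ^ 2) N ≠ 0 := hu.2 N h
  have hcc : ∀ d : Fin N, cc N d = 2 * (N - 1 - (d : ℕ)) + 1 := by
    intro d; unfold cc; have := d.2; omega
  have hbc : ∀ d : Fin N, br (u ^ 2) (cc N d) ≠ 0 := by
    intro d; exact hu.2 _ (by rw [hcc]; omega)
  set vf : ℂ := (u ^ 2) ^ (2 * ((N : ℤ) ^ 2 - 1)) with hvf
  have hvf0 : vf ≠ 0 := zpow_ne_zero _ hv0
  have hX : ∀ d, (belt N (u ^ 2) * (w.map (op N (u ^ 2))).prod) * φ d =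
      ((br (u ^ 2) ((N : ℤ) * cc N d) / (br (u ^ 2) (cc N d) * vf)) *
        (w.map (eig N (u ^ 2) (N - 1 - d))).prod) • φ d := by
    intro d
    rw [Matrix.mul_assoc, prod_eig hROT hVEC hP hN u hu N hd d w, Matrix.mul_smul]
    have hb := hB u hu N φ ψ hd d
    have hne : br (u ^ 2) (cc N d) * vf ≠ 0 := mul_ne_zero (hbc d) hvf0
    have hb2 : belt N (u ^ 2) * φ d =
        (br (u ^ 2) ((N : ℤ) * cc N d) / (br (u ^ 2) (cc N d) * vf)) • φ d := by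
      rw [div_eq_inv_mul, ← smul_smul, ← hb, smul_smul, inv_mul_cancel₀ hne, one_smul]
    rw [hb2, smul_smul, mul_comm]
  have ht := hT u hu N h φ ψ hd _ _ hX
  have hJ : JL w N (u ^ 2) = ptr (kw N (u ^ 2)) (belt N (u ^ 2) *
      (w.map (op N (u ^ 2))).prod) ⟨0, h⟩ ⟨0, h⟩ := by
    unfold JL; rw [dif_pos h]
  rw [← hJ] at ht
  have hs : ∑ d : Fin N, ((br (u ^ 2) ((N : ℤ) * cc N d) / (br (u ^ 2) (cc N d) * vf)) *
        (w.map (eig N (u ^ 2) (N - 1 - d))).prod) * br (u ^ 2) (cc N d) =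
      ∑ d : Fin N, vf⁻¹ * (br (u ^ 2) N * (UU N (u ^ 2) (N - 1 - d) *
        (w.map (eig N (u ^ 2) (N - 1 - d))).prod)) := by
    refine sum_congr rfl fun d _ => ?_
    have e := UU_eq N (u ^ 2) hv0 (N - 1 - d)
    rw [← hcc d] at e
    rw [← e]
    have := hbc d
    field_simp
  rw [hs, Fin.sum_univ_eq_sum_range (fun d => vf⁻¹ * (br (u ^ 2) N * (UU N (u ^ 2) (N - 1 - d) *
        (w.map (eig N (u ^ 2) (N - 1 - d))).prod))) N,
    Finset.sum_range_reflect (fun c => vf⁻¹ * (br (u ^ 2) N * (UU N (u ^ 2) c *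
        (w.map (eig N (u ^ 2) c)).prod))) N, ← mul_sum, ← mul_sum] at ht
  have hfin : br (u ^ 2) N * JL w N (u ^ 2) = br (u ^ 2) N * (vf⁻¹ *
      ∑ c ∈ range N, UU N (u ^ 2) c * (w.map (eig N (u ^ 2) c)).prod) := by
    rw [ht]; ring
  have := mul_left_cancel₀ hbN hfin
  rw [this, _root_.zpow_neg]

end Pool.Agent.W719.BS
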