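import Pool.Agent.W719.BS.Defs

/-!
# Belted sums of Whitehead links: task statements

Every `S_X : Prop` is to be proved as a theorem. `Gen u` says that `v = u ^ 2` is not a root of
unity; `IsDec u N φ ψ` is the decomposition `V_N ⊗ V_N = ⊕_d V_{cc N d}`, `cc N d = 2 (N-1-d) + 1`,
proved to exist in `Pool.Agent.H897R.J.DecD` (`taskDec`); the other facts on braidings are
`Pool.Agent.H345J.taskMod, taskInt, taskInv`, `Pool.Agent.H667J.taskHex1, taskHex2`,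
`Pool.Agent.H22R3.J.taskNat`, `Pool.Agent.H973J.taskSchur`, `taskPtr550`, `taskTop`,
`Pool.Agent.H559R3.J.taskCross` (all imported by `Pool.Agent.H550R3.Jones.Main`).
-/

set_option autoImplicit false

namespace Pool.Agent.W719.BS

open Matrix Finset Filter Topology Pool.Agent.H550R3.Jones
open scoped Kronecker

/-- the rotation of a homomorphism is a homomorphism -/
def S_ROT : Prop := ∀ (N : ℕ) (v : ℂ), v ≠ 0 → (∀ k : ℕ, 0 < k → k < N → br v k ≠ 0) →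
  ∀ A : Matrix (Fin N × Fin N) (Fin N × Fin N) ℂ,
    IsInt (W v N) (W v N) A → IsInt (W v N) (W v N) (rot N v A)

/-- a homomorphism acts on every summand by a scalar, which may be read off at any coordinate of the
lowest weight vector `φ_d e_{last}` (coordinates `(k, l)` with `k + l = N - 1 + c`) or of the
highest weight vector `φ_d e_0` (coordinates `(k, l)` with `k + l = d`); all these coordinates are
nonzero and given by explicit products. -/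
def S_VEC : Prop := ∀ u : ℂ, Gen u → ∀ N : ℕ, ∀ φ ψ, IsDec u N φ ψ → ∀ d : Fin N,
  (∀ A : Matrix (Fin N × Fin N) (Fin N × Fin N) ℂ, IsInt (W (u ^ 2) N) (W (u ^ 2) N) A →
    ∃ r : ℂ, A * φ d = r • φ d) ∧
  (∃ a : ℂ, a ≠ 0 ∧ ∀ p : Fin N × Fin N, ∀ j : Fin (cc N d), (j : ℕ) + 1 = cc N d →
    φ d p j = if (p.1 : ℕ) + p.2 + d + 2 = 2 * N then
      a * ((-1) ^ (p.1 : ℕ) * (brf (u ^ 2) p.1 * brf (u ^ 2) p.2) *
        (u ^ 2) ^ (((N : ℤ) - 2) * (p.1 : ℕ) - (p.1 : ℕ) ^ 2)) else 0) ∧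
  (∃ a : ℂ, a ≠ 0 ∧ ∀ p : Fin N × Fin N, ∀ j : Fin (cc N d), (j : ℕ) = 0 →
    φ d p j = if (p.1 : ℕ) + p.2 = d then
      a * ((-1) ^ (p.1 : ℕ) * (brf (u ^ 2) (N - 1 - p.1) * brf (u ^ 2) (N - 1 - p.2)) *
        (u ^ 2) ^ ((2 * (d : ℕ) - (N : ℤ)) * (p.1 : ℕ) - (p.1 : ℕ) ^ 2)) else 0)

/-- the scalar of the positive clasp -/
def S_KAPP : Prop := S_ROT → S_VEC → ∀ u : ℂ, Gen u → ∀ N : ℕ, ∀ φ ψ, IsDec u N φ ψ →
  ∀ d : Fin N, rot N (u ^ 2) (crossP N (u ^ 2) * crossP N (u ^ 2)) * φ d =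
    kapP N (u ^ 2) (N - 1 - d) • φ d

/-- the scalar of the negative clasp -/
def S_KAPN : Prop := S_ROT → S_VEC → ∀ u : ℂ, Gen u → ∀ N : ℕ, ∀ φ ψ, IsDec u N φ ψ →
  ∀ d : Fin N, rot N (u ^ 2) (crossN N (u ^ 2) * crossN N (u ^ 2)) * φ d =
    kapP N (u ^ 2)⁻¹ (N - 1 - d) • φ d

/-- the scalar of the belt -/
def S_BELT : Prop := ∀ u : ℂ, Gen u → ∀ N : ℕ, ∀ φ ψ, IsDec u N φ ψ →
  ∀ d : Fin N, (br (u ^ 2) (cc N d) * (u ^ 2) ^ (2 * ((N : ℤ) ^ 2 - 1))) •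
    (belt N (u ^ 2) * φ d) = br (u ^ 2) ((N : ℤ) * cc N d) • φ d

/-- the partial trace of an operator which is scalar on the summands -/
def S_TR : Prop := ∀ u : ℂ, Gen u → ∀ N : ℕ, ∀ h : 0 < N, ∀ φ ψ, IsDec u N φ ψ →
  ∀ (X : Matrix (Fin N × Fin N) (Fin N × Fin N) ℂ) (x : Fin N → ℂ),
    (∀ d, X * φ d = x d • φ d) →
    br (u ^ 2) N * ptr (kw N (u ^ 2)) X ⟨0, h⟩ ⟨0, h⟩ = ∑ d, x d * br (u ^ 2) (cc N d)

/-- eigenvalues of the pieces on the summand of dimension `2 c + 1` -/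
noncomputable def eig (N : ℕ) (v : ℂ) (c : ℕ) : Piece → ℂ
  | .clasp true => kapP N v c
  | .clasp false => kapP N v⁻¹ c
  | .twist true => (-1) ^ (N - 1 - c) * v ^ ((c : ℤ) * (c + 1) - ((N : ℤ) ^ 2 - 1))
  | .twist false => (-1) ^ (N - 1 - c) * v ^ (-((c : ℤ) * (c + 1) - ((N : ℤ) ^ 2 - 1)))

/-- continuity at the root of unity -/
def S_CONT : Prop := ∀ (w : List Piece) (N : ℕ), 0 < N →
  ContinuousAt (JL w N) (v0 N) ∧ ∀ c < N, ∀ p, ContinuousAt (fun v => eig N v c p) (v0 N)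

/-- `L(x) = ∫_0^x log (2 sin π t) dt` -/
noncomputable def LL (x : ℝ) : ℝ := ∫ t in (0:ℝ)..x, Real.log (2 * Real.sin (Real.pi * t))

/-- asymptotics of the factorials at the root of unity: the midpoint rule is exact up to a bounded
error, and up to `C / N` away from the ends -/
def S_STIR : Prop :=
  (∃ C : ℝ, ∀ N n : ℕ, n < N →
    |Real.log (D N n) - Real.log N / 2 - N * LL ((n + 1 / 2) / N)| ≤ C) ∧
  ∀ δ : ℝ, 0 < δ → ∃ C : ℝ, ∀ N n : ℕ, n < N → δ * N ≤ n → δ * N ≤ (N : ℝ) - n →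
    |Real.log (D N n) - Real.log N / 2 - N * LL ((n + 1 / 2) / N)| ≤ C / N

/-- sums of Gaussian type as integrals: `t = (m - a N) / √N` -/
def S_SUM : Prop := ∀ (E : Type) [NormedAddCommGroup E] [NormedSpace ℝ E] [CompleteSpace E]
  (f : ℕ → ℤ → E) (φ : ℝ → E) (a C κ : ℝ), 0 < κ → Continuous φ →
  (∀ᶠ N : ℕ in atTop, ∀ m : ℤ, ‖f N m‖ ≤ C * Real.exp (-κ * ((m - a * N) ^ 2 / N))) →
  (∀ (t : ℝ) (m : ℕ → ℤ), Tendsto (fun N : ℕ => ((m N : ℝ) - a * N) / √N) atTop (𝓝 t) →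
    Tendsto (fun N => f N (m N)) atTop (𝓝 (φ t))) →
  Tendsto (fun N : ℕ => (1 / √N : ℝ) • ∑' m : ℤ, f N m) atTop (𝓝 (∫ t, φ t))

/-- second order expansion -/
def S_TAY : Prop := ∀ (x : ℝ) (_ : 0 < x) (_ : x < 1) (h : ℕ → ℝ) (s : ℝ),
  Tendsto h atTop (𝓝 s) →
  Tendsto (fun N : ℕ => (N : ℝ) * (LL (x + h N / √N) - LL x) -
    √N * Real.log (2 * Real.sin (Real.pi * x)) * h N) atTop
    (𝓝 (Real.pi * Real.cos (Real.pi * x) / (2 * Real.sin (Real.pi * x)) * s ^ 2))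

/-- the global bound of the potential: `y + z ≤ 1` -/
def S_CONC : Prop := ∀ y z : ℝ, 0 ≤ y → 0 ≤ z → y + z ≤ 1 →
  2 * LL (y + z) - 2 * LL z - LL y ≤ 4 * LL (3 / 4) - Real.pi / 2 * (y - 1 / 2) ^ 2 -
    Real.pi * Real.sin (Real.pi * y) * (z - (1 - y) / 2) ^ 2

end Pool.Agent.W719.BS
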