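import Pool.Agent.H550R3.Jones.Stmts

/-!
# Belted sums of Whitehead links: operators of the tangles

`V = V_N` is the `N`-dimensional module with basis `e_0, ..., e_{N-1}`; `crossP N v`, `crossN N v`
are the (framing-normalised) positive and negative crossings on `V ⊗ V`
(`Pool.Agent.H550R3.Jones.Stmts`), `v ^ 2 = q`.
-/

set_option autoImplicit false

namespace Pool.Agent.W719.BS

open Matrix Finset Pool.Agent.H550R3.Jones

/-- coefficients of the invariant vector `∑_j cup_j e_j ⊗ e_{N-1-j}` -/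
noncomputable def cup (N : ℕ) (v : ℂ) (j : ℕ) : ℂ :=
  (-1) ^ j * (brf v j * brf v (N - 1 - j)) * v ^ ((j : ℤ) * ((N : ℤ) - 2 - j))

/-- rotation of a tangle by a quarter turn:
`(1 ⊗ 1 ⊗ cap) (1 ⊗ A ⊗ 1) (cup ⊗ 1 ⊗ 1)`, where `cap (e_{N-1-l} ⊗ e_l) = 1 / cup_l` -/
noncomputable def rot (N : ℕ) (v : ℂ) (A : Matrix (Fin N × Fin N) (Fin N × Fin N) ℂ) :
    Matrix (Fin N × Fin N) (Fin N × Fin N) ℂ :=
  fun p q => cup N v p.1 / cup N v q.2 * A (p.2, Fin.rev q.2) (Fin.rev p.1, q.1)

/-- the weights of the quantum trace -/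
noncomputable def kw (N : ℕ) (v : ℂ) (x : Fin N) : ℂ := v ^ ((N : ℤ) - 1 - 2 * (x : ℕ))

/-- a closed component coloured `N` around the two strands (a belt): the third strand passes around
the first two (`s_2 s_1 s_1 s_2`) and is closed by the quantum trace -/
noncomputable def belt (N : ℕ) (v : ℂ) : Matrix (Fin N × Fin N) (Fin N × Fin N) ℂ :=
  fun p q => ∑ x : Fin N, kw N v x *
    (on23 (crossP N v) * (on12 (crossP N v) * (on12 (crossP N v) * on23 (crossP N v))))
      (p.1, (p.2, x)) (q.1, (q.2, x))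

/-- the pieces: a clasp (two vertical half twists, of either handedness) and a half twist of the two
strands (of either handedness) -/
inductive Piece
  | clasp (s : Bool)
  | twist (s : Bool)
deriving DecidableEq

/-- the operators of the pieces on `V ⊗ V` -/
noncomputable def op (N : ℕ) (v : ℂ) : Piece → Matrix (Fin N × Fin N) (Fin N × Fin N) ℂ
  | .clasp true => rot N v (crossP N v * crossP N v)
  | .clasp false => rot N v (crossN N v * crossN N v)
  | .twist true => crossP N v
  | .twist false => crossN N v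

/-- the closure of the belt and the pieces of the word `w` as a long link: the second strand is
closed by the quantum trace, entry at `e_0` of the resulting scalar operator on `V` -/
noncomputable def JL (w : List Piece) (N : ℕ) (v : ℂ) : ℂ :=
  if h : 0 < N then
    ptr (kw N v) (belt N v * (w.map (op N v)).prod) ⟨0, h⟩ ⟨0, h⟩ else 0

/-- `e^(π i / N)` -/
noncomputable def v0 (N : ℕ) : ℂ := Complex.exp (Real.pi * Complex.I / N)

/-! ## numbers -/

/-- `D_n = ∏_{j=1}^n 2 sin (π j / N)` -/
noncomputable def D (N n : ℕ) : ℝ := ∏ j ∈ range n, 2 * Real.sin (Real.pi * (j + 1) / N)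

/-- `S_c = (1/D_c) ∑_{m < N-c} (D_{c+m} / D_m)^2` -/
noncomputable def S (N c : ℕ) : ℝ := (∑ m ∈ range (N - c), (D N (c + m) / D N m) ^ 2) / D N c

/-- eigenvalue of the clasp `rot (crossP * crossP)` on the summand of dimension `2 c + 1` -/
noncomputable def kapP (N : ℕ) (v : ℂ) (c : ℕ) : ℂ :=
  (-1) ^ (N - 1 - c) * v ^ (-((N : ℤ) - 1) * (c + 1) - ((c * (c + 3) / 2 : ℕ) : ℤ)) * brf v c *
    ∑ m ∈ range (N - c), (brf v (c + m) / (brf v c * brf v m)) *
      (brf v (N - 1 - m) / (brf v c * brf v (N - 1 - m - c))) * v ^ (-(2 * (m : ℤ) * N))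

end Pool.Agent.W719.BS
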