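import Mathlib

/-!
# Ratios and moduli from the leading asymptotics `J N ~ C N^(3/2) z^N`
-/

set_option autoImplicit false

namespace Pool.Agent.W719.BS

open Filter Topology

theorem asy_ne (J : ℕ → ℂ) (z C : ℂ) (hC : C ≠ 0)
    (h : Tendsto (fun N : ℕ => J N / (((N : ℝ) * √N : ℝ) * z ^ N)) atTop (𝓝 C)) :
    ∀ᶠ N in atTop, J N ≠ 0 := by
  have h1 := h.eventually_ne hC
  filter_upwards [h1] with N h1 h2
  rw [h2, zero_div] at h1
  exact h1 rfl

theorem asy_ratio (J : ℕ → ℂ) (z C : ℂ) (hz : z ≠ 0) (hC : C ≠ 0)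
    (h : Tendsto (fun N : ℕ => J N / (((N : ℝ) * √N : ℝ) * z ^ N)) atTop (𝓝 C)) (m : ℕ) :
    Tendsto (fun N : ℕ => J (N + m) / J N) atTop (𝓝 (z ^ m)) := by
  have h1 := (h.comp (tendsto_add_atTop_nat m)).div h hC
  rw [div_self hC] at h1
  have h2 : Tendsto (fun N : ℕ => (((N + m : ℕ) : ℝ) / N)) atTop (𝓝 1) := by
    have h3 := (tendsto_const_div_atTop_nhds_zero_nat (m : ℝ)).const_add 1
    rw [add_zero] at h3
    refine h3.congr' ?_
    filter_upwards [eventually_ge_atTop 1] with N hN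
    have hN0 : (N : ℝ) ≠ 0 := by exact_mod_cast (by omega : N ≠ 0)
    push_cast
    field_simp
  have h3 : Tendsto (fun N : ℕ => (((N + m : ℕ) : ℝ) / N) * √(((N + m : ℕ) : ℝ) / N)) atTop
      (𝓝 1) := by
    have h4 := h2.mul ((Real.continuous_sqrt.tendsto 1).comp h2)
    rw [Real.sqrt_one, mul_one] at h4
    exact h4
  have h5 := ((Complex.continuous_ofReal.tendsto _).comp h3).mul_const (z ^ m)
  have h6 := h1.mul h5
  rw [Complex.ofReal_one, one_mul, one_mul] at h6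
  refine h6.congr' ?_
  have hne := asy_ne J z C hC h
  filter_upwards [eventually_ge_atTop 1, hne] with N hN hne
  have hN0 : (0 : ℝ) < N := by exact_mod_cast hN
  have hM0 : (0 : ℝ) < (N + m : ℕ) := by exact_mod_cast (by omega : 0 < N + m)
  have hsN : 0 < √(N : ℝ) := Real.sqrt_pos.2 hN0
  have hsM : 0 < √((N + m : ℕ) : ℝ) := Real.sqrt_pos.2 hM0
  have e1 : (((N + m : ℕ) : ℝ) : ℂ) ≠ 0 := by exact_mod_cast hM0.ne'
  have e2 : ((N : ℝ) : ℂ) ≠ 0 := by exact_mod_cast hN0.ne'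
  have e3 : ((√(N : ℝ) : ℝ) : ℂ) ≠ 0 := by exact_mod_cast hsN.ne'
  have e4 : ((√((N + m : ℕ) : ℝ) : ℝ) : ℂ) ≠ 0 := by exact_mod_cast hsM.ne'
  have hzN : z ^ N ≠ 0 := pow_ne_zero _ hz
  have hzM : z ^ m ≠ 0 := pow_ne_zero _ hz
  simp only [Function.comp, Pi.div_apply]
  rw [Real.sqrt_div hM0.le, pow_add]
  generalize ((N + m : ℕ) : ℝ) = M at *
  simp only [Complex.ofReal_mul, Complex.ofReal_div]
  field_simp

theorem asy_log (J : ℕ → ℂ) (z C : ℂ) (hz : z ≠ 0) (hC : C ≠ 0)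
    (h : Tendsto (fun N : ℕ => J N / (((N : ℝ) * √N : ℝ) * z ^ N)) atTop (𝓝 C)) :
    Tendsto (fun N : ℕ => Real.log ‖J N‖ / N) atTop (𝓝 (Real.log ‖z‖)) := by
  have hCn : ‖C‖ ≠ 0 := norm_ne_zero_iff.mpr hC
  have h1 := (Real.continuousAt_log hCn).tendsto.comp h.norm
  have h2 : Tendsto (fun N : ℕ => Real.log ‖J N / (((N : ℝ) * √N : ℝ) * z ^ N)‖ / N) atTop
      (𝓝 0) := h1.div_atTop tendsto_natCast_atTop_atTop
  have h3 : Tendsto (fun N : ℕ => Real.log N / N) atTop (𝓝 0) :=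
    (Real.isLittleO_log_id_atTop.tendsto_div_nhds_zero).comp tendsto_natCast_atTop_atTop
  have h4 := (h2.add (h3.const_mul (3 / 2))).add_const (Real.log ‖z‖)
  rw [mul_zero, add_zero, zero_add] at h4
  refine h4.congr' ?_
  have hne := asy_ne J z C hC h
  filter_upwards [eventually_ge_atTop 1, hne] with N hN hne
  have hN0 : (0 : ℝ) < N := by exact_mod_cast hN
  have hsN : 0 < √(N : ℝ) := Real.sqrt_pos.2 hN0
  have hJ : ‖J N‖ ≠ 0 := norm_ne_zero_iff.mpr hne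
  have hzn : ‖z‖ ≠ 0 := norm_ne_zero_iff.mpr hz
  rw [norm_div, norm_mul, norm_pow, Complex.norm_real, Real.norm_eq_abs,
    abs_of_pos (by positivity), Real.log_div hJ (by positivity),
    Real.log_mul (by positivity) (by positivity), Real.log_mul hN0.ne' hsN.ne',
    Real.log_sqrt hN0.le, Real.log_pow]
  field_simp
  ring

end Pool.Agent.W719.BS
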