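import Pool.Agent.W719.BS.Main
import Pool.Agent.W719.BS.Ratio

/-!
# The complexified volume conjecture for the closures of words in clasps and half twists

`L_w` is the closure of the two-strand word `w` in clasps and half twists, together with a belt
around the two strands: a belted sum of Whitehead links (one for each clasp) with half twists.
-/

set_option autoImplicit false

namespace Pool.Agent.W719.BS

open Finset Filter Topology MeasureTheory

/-- `8 Λ(π/4)`, the volume of the regular ideal octahedron -/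
noncomputable def voct : ℝ := -8 * ∫ t in (0:ℝ)..(Real.pi / 4), Real.log (2 * Real.sin t)

/-- the `N`-coloured invariant of `L_w` at the root of unity, with framing exponent `f` -/
noncomputable def JF (w : List Piece) (f : ℤ) (N : ℕ) : ℂ :=
  Complex.exp (Real.pi * Complex.I * f * ((N : ℂ) ^ 2 - 1) / (2 * N)) * JL w N (v0 N)

/-- `CS = π² (2 (t₊ - t₋) - 9 (c₊ - c₋)) / 4 - π² f` -/
noncomputable def CSw (w : List Piece) (f : ℤ) : ℝ :=
  Real.pi ^ 2 * (2 * ns w - 9 * nk w) / 4 - Real.pi ^ 2 * f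

/-- `Φ = CS + i vol` -/
noncomputable def Phi (w : List Piece) (f : ℤ) : ℂ :=
  (CSw w f : ℂ) + Complex.I * ((nb w * voct : ℝ) : ℂ)

/-- `e^(-π i (k + 2 s) / 4) 2^(-b) (2 / (b + (k - 2 s) i))^(1/2)` -/
noncomputable def Cw (w : List Piece) : ℂ :=
  Complex.exp (-(Real.pi * Complex.I * (nk w + 2 * ns w) / 4)) * (1 / 2) ^ nb w *
    (2 / (nb w + (nk w - 2 * ns w) * Complex.I)) ^ (1 / 2 : ℂ)

theorem voct_eq : voct = 8 * Real.pi * LL (3 / 4) := LL_vol.symm

theorem Cw_eq (w : List Piece) : Cw w = ex (-(nk w / 4 + ns w / 2)) *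
    lead (nb w) (ns w - nk w / 2) := by
  unfold Cw lead ex
  rw [mul_assoc]
  congr 1
  · congr 1; push_cast; ring
  · congr 2
    have : ((nb w : ℂ) / 2 - ((ns w - nk w / 2 : ℝ) : ℂ) * Complex.I) =
        (nb w + (nk w - 2 * ns w) * Complex.I) / 2 := by push_cast; ring
    rw [this, one_div_div]

theorem Cw_ne (w : List Piece) (hb : 1 ≤ nb w) : Cw w ≠ 0 := by
  rw [Cw_eq]; exact mul_ne_zero (ex_ne _) (lead_ne _ hb _)

theorem expPhi (w : List Piece) (f : ℤ) :
    Complex.exp (Phi w f / (2 * Real.pi * Complex.I)) =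
      ex (9 * nk w / 8 - ns w / 4 + f / 2) * (Real.exp (4 * LL (3 / 4)) ^ nb w : ℝ) := by
  have hpi : (Real.pi : ℂ) ≠ 0 := by exact_mod_cast Real.pi_ne_zero
  have hI := Complex.I_ne_zero
  unfold ex
  rw [← Real.exp_nat_mul, Complex.ofReal_exp, ← Complex.exp_add]
  congr 1
  unfold Phi CSw
  rw [voct_eq]
  push_cast
  have hI2 : Complex.I * Complex.I = -1 := Complex.I_mul_I
  field_simp
  linear_combination (-(9 * (nk w : ℂ) / 4 - ns w / 2 + f) * Real.pi * 32) * hI2

theorem JF_asymp (w : List Piece) (hb : 1 ≤ nb w) (f : ℤ) :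
    Tendsto (fun N : ℕ => JF w f N / (((N : ℝ) * √N : ℝ) *
      Complex.exp (Phi w f / (2 * Real.pi * Complex.I)) ^ N)) atTop (𝓝 (Cw w)) := by
  have h1 := JL_asymp w hb
  rw [← Cw_eq] at h1
  have h2 : Tendsto (fun N : ℕ => (-(f : ℝ) / 2) / N) atTop (𝓝 0) :=
    tendsto_const_div_atTop_nhds_zero_nat _
  have h3 := (ex_cont.tendsto 0).comp h2
  rw [ex_zero] at h3
  have h4 := h3.mul h1
  rw [one_mul] at h4
  refine h4.congr' ?_
  filter_upwards [eventually_ge_atTop 1] with N hN
  have hN0 : (0 : ℝ) < N := by exact_mod_cast hN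
  have hN1 : (N : ℂ) ≠ 0 := by exact_mod_cast hN0.ne'
  simp only [Function.comp]
  have e1 : Complex.exp (Real.pi * Complex.I * f * ((N : ℂ) ^ 2 - 1) / (2 * N)) =
      ex (N * (f / 2)) * ex (-(f : ℝ) / 2 / N) := by
    rw [← ex_add]
    unfold ex
    congr 1
    push_cast
    field_simp
    ring
  have e2 : Complex.exp (Phi w f / (2 * Real.pi * Complex.I)) ^ N =
      ex (N * (9 * nk w / 8 - ns w / 4)) * ex (N * (f / 2)) *
        ((Real.exp (4 * N * LL (3 / 4)) ^ nb w : ℝ) : ℂ) := by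
    rw [expPhi, mul_pow, ← ex_nat_mul, ← ex_add]
    congr 1
    · congr 1; ring
    · have : Real.exp (4 * N * LL (3 / 4)) = Real.exp (4 * LL (3 / 4)) ^ N := by
        rw [← Real.exp_nat_mul]; congr 1; ring
      rw [this]
      push_cast
      rw [← pow_mul, ← pow_mul, Nat.mul_comm]
  unfold JF
  rw [e1, e2]
  have hA := ex_ne (N * (f / 2))
  generalize ex (N * (f / 2)) = A at *
  generalize ex (-(f : ℝ) / 2 / N) = B
  generalize ex (N * (9 * nk w / 8 - ns w / 4)) = E
  generalize (Real.exp (4 * N * LL (3 / 4)) ^ nb w) = F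
  push_cast
  field_simp

end Pool.Agent.W719.BS
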