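import Pool.Agent.W719.BS.Term

set_option autoImplicit false

namespace Pool.Agent.W719.BS

open Finset Filter Topology MeasureTheory
open Pool.Agent.W358.BSTay (gg gg_int)

theorem gg_nonneg (t : ℝ) (h0 : 1 / 6 ≤ t) (h1 : t ≤ 5 / 6) : 0 ≤ gg t := by
  unfold gg
  apply Real.log_nonneg
  have hpi := Real.pi_pos
  have h2 : (1 : ℝ) / 2 ≤ Real.sin (Real.pi * t) := by
    rcases le_total t (1 / 2) with h | h
    · have : Real.sin (Real.pi / 6) ≤ Real.sin (Real.pi * t) :=
        Real.sin_le_sin_of_le_of_le_pi_div_two (by linarith) (by nlinarith) (by nlinarith)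
      rwa [Real.sin_pi_div_six] at this
    · have h3 : Real.sin (Real.pi * t) = Real.sin (Real.pi * (1 - t)) := by
        have : Real.pi * (1 - t) = Real.pi - Real.pi * t := by ring
        rw [this, Real.sin_pi_sub]
      have : Real.sin (Real.pi / 6) ≤ Real.sin (Real.pi * (1 - t)) :=
        Real.sin_le_sin_of_le_of_le_pi_div_two (by linarith) (by nlinarith) (by nlinarith)
      rw [Real.sin_pi_div_six] at this
      rwa [h3]
  linarith

theorem sin_ge_half (y : ℝ) (h0 : 1 / 4 ≤ y) (h1 : y ≤ 3 / 4) :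
    1 / 2 ≤ Real.sin (Real.pi * y) := by
  have hpi := Real.pi_pos
  rcases le_total y (1 / 2) with h | h
  · have : Real.sin (Real.pi / 6) ≤ Real.sin (Real.pi * y) :=
      Real.sin_le_sin_of_le_of_le_pi_div_two (by linarith) (by nlinarith) (by nlinarith)
    rwa [Real.sin_pi_div_six] at this
  · have h3 : Real.sin (Real.pi * y) = Real.sin (Real.pi * (1 - y)) := by
      have : Real.pi * (1 - y) = Real.pi - Real.pi * y := by ring
      rw [this, Real.sin_pi_sub]
    have : Real.sin (Real.pi / 6) ≤ Real.sin (Real.pi * (1 - y)) :=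
      Real.sin_le_sin_of_le_of_le_pi_div_two (by linarith) (by nlinarith) (by nlinarith)
    rw [Real.sin_pi_div_six] at this
    rwa [h3]

/-- loss by shifting `y` -/
noncomputable def PP (N c : ℕ) : ℝ := N * (LL (c / N) - LL ((c + 1 / 2) / N))

theorem PP_mid (N c : ℕ) (hN : 6 ≤ N) (h0 : (1 : ℝ) / 4 ≤ c / N) (h1 : (c : ℝ) / N ≤ 3 / 4) :
    PP N c ≤ 0 := by
  have hN0 : (0 : ℝ) < N := by exact_mod_cast (by omega : 0 < N)
  have hN6 : (6 : ℝ) ≤ N := by exact_mod_cast hN
  have h2 : ((c : ℝ) + 1 / 2) / N = c / N + 1 / 2 / N := by ring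
  have h3 : (1 : ℝ) / 2 / N ≤ 1 / 12 := by
    rw [div_le_iff₀ hN0]; linarith
  have h4 : (0 : ℝ) ≤ 1 / 2 / N := by positivity
  have h5 : LL ((c + 1 / 2) / N) - LL (c / N) = ∫ t in ((c : ℝ) / N)..((c + 1 / 2) / N), gg t :=
    LL_sub' _ _
  have h6 : 0 ≤ ∫ t in ((c : ℝ) / N)..((c + 1 / 2) / N), gg t := by
    apply intervalIntegral.integral_nonneg
    · rw [h2]; linarith
    · intro t ht
      apply gg_nonneg t
      · have := ht.1; linarith
      · have := ht.2; rw [h2] at this; linarith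
  unfold PP
  have h7 : LL (c / N) - LL ((c + 1 / 2) / N) ≤ 0 := by linarith
  exact mul_nonpos_of_nonneg_of_nonpos hN0.le h7

theorem PP_unif (η : ℝ) (hη : 0 < η) : ∃ N₀ : ℕ, ∀ N : ℕ, N₀ ≤ N → ∀ c : ℕ, c < N →
    PP N c ≤ η * N := by
  have h1 : UniformContinuousOn LL (Set.Icc 0 1) :=
    isCompact_Icc.uniformContinuousOn_of_continuous LL_cont.continuousOn
  rw [Metric.uniformContinuousOn_iff] at h1
  obtain ⟨δ, hδ, h2⟩ := h1 η hη
  obtain ⟨N₀, hN₀⟩ := exists_nat_gt (1 / δ)
  refine ⟨N₀ + 1, fun N hN c hc => ?_⟩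
  have hN0 : (0 : ℝ) < N := by exact_mod_cast (by omega : 0 < N)
  have hNδ : 1 / δ < N := hN₀.trans (by exact_mod_cast (by omega : N₀ < N))
  have hcN : (c : ℝ) + 1 ≤ N := by exact_mod_cast hc
  have h3 : (c : ℝ) / N ∈ Set.Icc (0 : ℝ) 1 :=
    ⟨by positivity, by rw [div_le_one hN0]; linarith⟩
  have h4 : ((c : ℝ) + 1 / 2) / N ∈ Set.Icc (0 : ℝ) 1 :=
    ⟨by positivity, by rw [div_le_one hN0]; linarith⟩
  have h5 : dist ((c : ℝ) / N) ((c + 1 / 2) / N) < δ := by
    rw [Real.dist_eq]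
    have : (c : ℝ) / N - (c + 1 / 2) / N = -(1 / 2 / N) := by ring
    rw [this, abs_neg, abs_of_pos (by positivity), div_lt_iff₀ hN0]
    rw [div_lt_iff₀ hδ] at hNδ
    linarith
  have h6 := h2 _ h3 _ h4 h5
  rw [Real.dist_eq] at h6
  have h7 := (abs_lt.mp h6).2
  unfold PP
  nlinarith

/-- bound of the terms -/
theorem tm_le (hST : S_STIR) (hCO : S_CONC) : ∃ C : ℝ, ∀ N c m : ℕ, c + m < N →
    √N * tm N c m * Real.exp (-(4 * N * LL (3 / 4))) ≤
      C * Real.exp (-(Real.pi / 2) * ((c - N / 2) ^ 2 / N) -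
        Real.pi * Real.sin (Real.pi * (c / N)) * ((m + 1 / 2 - (N - c) / 2) ^ 2 / N) +
        PP N c) := by
  obtain ⟨C₀, hC₀⟩ := hST.1
  refine ⟨Real.exp (5 * C₀), fun N c m h => ?_⟩
  have hN0 : (0 : ℝ) < N := by exact_mod_cast (by omega : 0 < N)
  have hs : √(N : ℝ) = Real.exp (Real.log N / 2) := by
    rw [← Real.log_sqrt hN0.le, Real.exp_log (Real.sqrt_pos.2 hN0)]
  rw [tm_exp N c m h, hs, ← Real.exp_add, ← Real.exp_add, ← Real.exp_add]
  apply Real.exp_le_exp.mpr
  have e1 := (abs_le.mp (hC₀ N (c + m) h)).2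
  have e2 := (abs_le.mp (hC₀ N m (by omega))).1
  have e3 := (abs_le.mp (hC₀ N c (by omega))).1
  have f1 : er N (c + m) ≤ C₀ := e1
  have f2 : -C₀ ≤ er N m := e2
  have f3 : -C₀ ≤ er N c := e3
  have hcm : (c : ℝ) + m + 1 ≤ N := by exact_mod_cast h
  have hc := hCO (c / N) ((m + 1 / 2) / N) (by positivity) (by positivity) (by
    rw [← add_div, div_le_one hN0]; linarith)
  have g1 : ((c : ℝ) / N + (m + 1 / 2) / N) = (((c + m : ℕ) : ℝ) + 1 / 2) / N := by
    push_cast; ring
  rw [g1] at hc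
  have hc2 := mul_le_mul_of_nonneg_left hc hN0.le
  have g2 : (N : ℝ) * (4 * LL (3 / 4) - Real.pi / 2 * ((c : ℝ) / N - 1 / 2) ^ 2 -
      Real.pi * Real.sin (Real.pi * (c / N)) * ((m + 1 / 2) / N - (1 - c / N) / 2) ^ 2) =
      4 * N * LL (3 / 4) - (Real.pi / 2) * ((c - N / 2) ^ 2 / N) -
        Real.pi * Real.sin (Real.pi * (c / N)) * ((m + 1 / 2 - (N - c) / 2) ^ 2 / N) := by
    field_simp
  rw [g2] at hc2
  have g3 : (N : ℝ) * expo N c m = N * (2 * LL (((c + m : ℕ) + 1 / 2) / N) -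
      2 * LL ((m + 1 / 2) / N) - LL (c / N)) + PP N c := by
    unfold expo PP; ring
  linarith

theorem S_bound (hST : S_STIR) (hCO : S_CONC) : ∃ C : ℝ, 0 ≤ C ∧ ∃ N₀ : ℕ, ∀ N : ℕ, N₀ ≤ N →
    ∀ c : ℕ, c < N → S N c * Real.exp (-(4 * N * LL (3 / 4))) ≤
      C * Real.exp (-(Real.pi / 4) * ((c - 1 / 2 * N) ^ 2 / N)) := by
  obtain ⟨C₁, hC₁⟩ := tm_le hST hCO
  obtain ⟨C₂, hC₂, hG⟩ := gauss_sum_le (Real.pi / 2) (by positivity)
  obtain ⟨N₁, hN₁⟩ := PP_unif (Real.pi / 128) (by positivity)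
  have hpi := Real.pi_pos
  refine ⟨|C₁| * (C₂ + 128 / Real.pi), ?_, N₁ + 6, fun N hN c hc => ?_⟩
  · positivity
  have hN0 : (0 : ℝ) < N := by exact_mod_cast (by omega : 0 < N)
  have hsN : 0 < √(N : ℝ) := Real.sqrt_pos.2 hN0
  have hss : √(N : ℝ) * √(N : ℝ) = N := Real.mul_self_sqrt hN0.le
  have hq : 0 ≤ ((c : ℝ) - 1 / 2 * N) ^ 2 / N := by positivity
  have hq' : ((c : ℝ) - N / 2) ^ 2 / N = ((c : ℝ) - 1 / 2 * N) ^ 2 / N := by ring
  have key : ∀ B : ℝ, 0 ≤ B → (∑ m ∈ range (N - c), √N * tm N c m *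
      Real.exp (-(4 * N * LL (3 / 4))) ≤ √N * (|C₁| * B * 
      Real.exp (-(Real.pi / 4) * ((c - 1 / 2 * N) ^ 2 / N)))) →
      S N c * Real.exp (-(4 * N * LL (3 / 4))) ≤ |C₁| * B *
      Real.exp (-(Real.pi / 4) * ((c - 1 / 2 * N) ^ 2 / N)) := by
    intro B hB h
    have h1 : ∑ m ∈ range (N - c), √N * tm N c m * Real.exp (-(4 * N * LL (3 / 4))) =
        √N * (S N c * Real.exp (-(4 * N * LL (3 / 4)))) := by
      rw [S_eq, sum_mul, mul_sum]
      refine sum_congr rfl fun m _ => by ring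
    rw [h1] at h
    exact le_of_mul_le_mul_left h hsN
  have hexp := Real.exp_pos (-(Real.pi / 4) * (((c : ℝ) - 1 / 2 * N) ^ 2 / N))
  by_cases hmid : (1 : ℝ) / 4 ≤ c / N ∧ (c : ℝ) / N ≤ 3 / 4
  · have hP := PP_mid N c (by omega) hmid.1 hmid.2
    have hsin := sin_ge_half _ hmid.1 hmid.2
    have h1 := key C₂ hC₂.le (by
      calc ∑ m ∈ range (N - c), √N * tm N c m * Real.exp (-(4 * N * LL (3 / 4)))
          ≤ ∑ m ∈ range (N - c), |C₁| * Real.exp (-(Real.pi / 4) * ((c - 1 / 2 * N) ^ 2 / N)) *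
            Real.exp (-(Real.pi / 2) * ((m - ((N - c) / 2 - 1 / 2)) ^ 2 / N)) := by
            refine sum_le_sum fun m hm => ?_
            have hm := mem_range.mp hm
            refine (hC₁ N c m (by omega)).trans ?_
            rw [mul_assoc |C₁|, ← Real.exp_add]
            refine mul_le_mul (le_abs_self _) (Real.exp_le_exp.mpr ?_) (Real.exp_pos _).le
              (abs_nonneg _)
            rw [hq']
            have a1 : ((m : ℝ) + 1 / 2 - (N - c) / 2) ^ 2 / N =
              (m - ((N - c) / 2 - 1 / 2)) ^ 2 / N := by ring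
            rw [a1]
            have a2 : 0 ≤ ((m : ℝ) - ((N - c) / 2 - 1 / 2)) ^ 2 / N := by positivity
            have a3 : Real.pi * (1 / 2) * (((m : ℝ) - ((N - c) / 2 - 1 / 2)) ^ 2 / N) ≤
              Real.pi * Real.sin (Real.pi * (c / N)) *
                (((m : ℝ) - ((N - c) / 2 - 1 / 2)) ^ 2 / N) :=
              mul_le_mul_of_nonneg_right (mul_le_mul_of_nonneg_left hsin hpi.le) a2
            nlinarith
        _ = |C₁| * Real.exp (-(Real.pi / 4) * ((c - 1 / 2 * N) ^ 2 / N)) *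
            ∑ m ∈ range (N - c), Real.exp (-(Real.pi / 2) *
              ((m - ((N - c) / 2 - 1 / 2)) ^ 2 / N)) := by rw [mul_sum]
        _ ≤ |C₁| * Real.exp (-(Real.pi / 4) * ((c - 1 / 2 * N) ^ 2 / N)) * (C₂ * √N) :=
            mul_le_mul_of_nonneg_left (hG N (by omega) _ _) (by positivity)
        _ = √N * (|C₁| * C₂ * Real.exp (-(Real.pi / 4) * ((c - 1 / 2 * N) ^ 2 / N))) := by ring)
    refine h1.trans ?_
    apply mul_le_mul_of_nonneg_right _ hexp.le
    apply mul_le_mul_of_nonneg_left _ (abs_nonneg _)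
    have : 0 < 128 / Real.pi := by positivity
    linarith
  · have hfar : 1 / 16 ≤ ((c : ℝ) / N - 1 / 2) ^ 2 := by
      rw [not_and_or, not_le, not_le] at hmid
      rcases hmid with h | h <;> nlinarith
    have hfar2 : (N : ℝ) / 16 ≤ ((c : ℝ) - 1 / 2 * N) ^ 2 / N := by
      have : ((c : ℝ) - 1 / 2 * N) ^ 2 / N = N * ((c : ℝ) / N - 1 / 2) ^ 2 := by
        field_simp
      rw [this]; nlinarith
    have hP := hN₁ N (by omega) c hc
    have h1 := key (128 / Real.pi) (by positivity) (by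
      calc ∑ m ∈ range (N - c), √N * tm N c m * Real.exp (-(4 * N * LL (3 / 4)))
          ≤ ∑ m ∈ range (N - c), |C₁| * (Real.exp (-(Real.pi / 4) * ((c - 1 / 2 * N) ^ 2 / N)) *
            Real.exp (-(Real.pi / 128) * N)) := by
            refine sum_le_sum fun m hm => ?_
            have hm := mem_range.mp hm
            refine (hC₁ N c m (by omega)).trans ?_
            rw [← Real.exp_add]
            refine mul_le_mul (le_abs_self _) (Real.exp_le_exp.mpr ?_) (Real.exp_pos _).le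
              (abs_nonneg _)
            rw [hq']
            have a2 : 0 ≤ ((m : ℝ) + 1 / 2 - (N - c) / 2) ^ 2 / N := by positivity
            have a3 : 0 ≤ Real.sin (Real.pi * (c / N)) := by
              apply Real.sin_nonneg_of_nonneg_of_le_pi
              · positivity
              · have : (c : ℝ) / N ≤ 1 := by
                  rw [div_le_one hN0]; exact_mod_cast hc.le
                nlinarith
            have a4 : 0 ≤ Real.pi * Real.sin (Real.pi * (c / N)) *
              (((m : ℝ) + 1 / 2 - (N - c) / 2) ^ 2 / N) := by positivity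
            nlinarith
        _ = (N - c : ℕ) * (|C₁| * (Real.exp (-(Real.pi / 4) * ((c - 1 / 2 * N) ^ 2 / N)) *
            Real.exp (-(Real.pi / 128) * N))) := by rw [sum_const, card_range, nsmul_eq_mul]
        _ ≤ N * (|C₁| * (Real.exp (-(Real.pi / 4) * ((c - 1 / 2 * N) ^ 2 / N)) *
            Real.exp (-(Real.pi / 128) * N))) := by
            apply mul_le_mul_of_nonneg_right _ (by positivity)
            exact_mod_cast Nat.sub_le _ _
        _ ≤ √N * (|C₁| * (128 / Real.pi) * Real.exp (-(Real.pi / 4) *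
              ((c - 1 / 2 * N) ^ 2 / N))) := by
            have b1 : √(N : ℝ) * Real.exp (-(Real.pi / 128) * N) ≤ 128 / Real.pi := by
              have b2 : √(N : ℝ) ≤ N := by
                have : (1 : ℝ) ≤ N := by exact_mod_cast (by omega : 1 ≤ N)
                rw [Real.sqrt_le_left hN0.le]; nlinarith
              have b3 := Real.add_one_le_exp (Real.pi / 128 * N)
              have b4 : Real.exp (-(Real.pi / 128) * N) = (Real.exp (Real.pi / 128 * N))⁻¹ := by
                rw [← Real.exp_neg]; congr 1; ring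
              rw [b4, ← div_eq_mul_inv, div_le_iff₀ (Real.exp_pos _)]
              have b5 : (N : ℝ) = 128 / Real.pi * (Real.pi / 128 * N) := by field_simp
              calc √(N : ℝ) ≤ N := b2
                _ = 128 / Real.pi * (Real.pi / 128 * N) := b5
                _ ≤ 128 / Real.pi * Real.exp (Real.pi / 128 * N) :=
                  mul_le_mul_of_nonneg_left (by linarith) (by positivity)
            have b6 : (N : ℝ) * (|C₁| * (Real.exp (-(Real.pi / 4) * ((c - 1 / 2 * N) ^ 2 / N)) *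
                Real.exp (-(Real.pi / 128) * N))) =
                √N * (|C₁| * (√N * Real.exp (-(Real.pi / 128) * N)) *
                  Real.exp (-(Real.pi / 4) * ((c - 1 / 2 * N) ^ 2 / N))) := by
              conv_lhs => rw [show (N : ℝ) * (|C₁| * (Real.exp (-(Real.pi / 4) *
                ((c - 1 / 2 * N) ^ 2 / N)) * Real.exp (-(Real.pi / 128) * N))) =
                (√(N : ℝ) * √(N : ℝ)) * (|C₁| * (Real.exp (-(Real.pi / 4) *
                ((c - 1 / 2 * N) ^ 2 / N)) * Real.exp (-(Real.pi / 128) * N))) by rw [hss]]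
              ring
            rw [b6]
            gcongr)
    refine h1.trans ?_
    apply mul_le_mul_of_nonneg_right _ hexp.le
    apply mul_le_mul_of_nonneg_left _ (abs_nonneg _)
    linarith

end Pool.Agent.W719.BS
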