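import Pool.Agent.W719.BS.Lim

set_option autoImplicit false

namespace Pool.Agent.W719.BS

open Finset Filter Topology MeasureTheory

theorem ex_cont : Continuous ex := by unfold ex; fun_prop

/-- complex Gaussian integral -/
theorem gauss_cx (b : ℕ) (hb : 1 ≤ b) (x : ℝ) :
    ∫ t : ℝ, (((1 / 2 * Real.exp (-(Real.pi / 2) * t ^ 2)) ^ b : ℝ) : ℂ) * ex (x * t ^ 2) =
      (1 / 2) ^ b * (1 / (b / 2 - x * Complex.I)) ^ (1 / 2 : ℂ) := by
  have hpi : (Real.pi : ℂ) ≠ 0 := by exact_mod_cast Real.pi_ne_zero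
  have hb0 : (0 : ℝ) < b := by exact_mod_cast hb
  set β : ℂ := Real.pi * (b / 2 - x * Complex.I) with hβ
  have hβre : 0 < β.re := by
    have : β.re = Real.pi * (b / 2) := by
      rw [hβ]
      simp [Complex.mul_re]
    rw [this]
    have := Real.pi_pos
    positivity
  have h1 : ∀ t : ℝ, (((1 / 2 * Real.exp (-(Real.pi / 2) * t ^ 2)) ^ b : ℝ) : ℂ) *
      ex (x * t ^ 2) = (1 / 2) ^ b * Complex.exp (-β * (t : ℂ) ^ 2) := by
    intro t
    unfold ex
    rw [mul_pow, ← Real.exp_nat_mul]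
    push_cast
    rw [mul_assoc, ← Complex.exp_add]
    congr 2
    rw [hβ]
    ring
  simp_rw [h1]
  rw [integral_const_mul, integral_gaussian_complex hβre]
  congr 2
  rw [hβ]
  have hne : (b / 2 - x * Complex.I : ℂ) ≠ 0 := by
    intro h
    have : β = 0 := by rw [hβ, h, mul_zero]
    rw [this] at hβre
    simp at hβre
  field_simp

/-- the leading constant -/
noncomputable def lead (b : ℕ) (x : ℝ) : ℂ := (1 / 2) ^ b * (1 / (b / 2 - x * Complex.I)) ^ (1 / 2 : ℂ)

theorem lead_ne (b : ℕ) (hb : 1 ≤ b) (x : ℝ) : lead b x ≠ 0 := by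
  have hb0 : (0 : ℝ) < b := by exact_mod_cast hb
  have hne : (b / 2 - x * Complex.I : ℂ) ≠ 0 := by
    intro h
    have := congrArg Complex.re h
    simp at this
    omega
  unfold lead
  refine mul_ne_zero (pow_ne_zero _ (by norm_num)) ?_
  rw [Complex.cpow_def_of_ne_zero (one_div_ne_zero hne)]
  exact Complex.exp_ne_zero _

theorem sum_tendsto (hST : S_STIR) (hSUM : S_SUM) (hTAY : S_TAY) (hCO : S_CONC) (b : ℕ)
    (hb : 1 ≤ b) (x : ℝ) :
    Tendsto (fun N : ℕ => (∑ c ∈ range N, ((2 * c + 1 : ℝ) * S N c ^ b : ℝ) *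
        ex (x * (uu N c ^ 2 / N))) * ((Real.exp (-(4 * N * LL (3 / 4))) ^ b / (N * √N) : ℝ) : ℂ))
      atTop (𝓝 (lead b x)) := by
  obtain ⟨C, hC0, N₀, hB⟩ := S_bound hST hCO
  have hpi := Real.pi_pos
  set g : ℕ → ℕ → ℂ := fun N c => (((2 * c + 1) / N * (S N c *
    Real.exp (-(4 * N * LL (3 / 4)))) ^ b : ℝ) : ℂ) * ex (x * (uu N c ^ 2 / N)) with hg
  set f : ℕ → ℤ → ℂ := fun N m => if 0 ≤ m ∧ m.toNat < N then g N m.toNat else 0 with hf
  have hmain := hSUM ℂ f (fun t => (((1 / 2 * Real.exp (-(Real.pi / 2) * t ^ 2)) ^ b : ℝ) : ℂ) *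
    ex (x * t ^ 2)) (1 / 2) (3 * C ^ b) (Real.pi / 4) (by positivity)
    (by have := ex_cont; fun_prop) ?_ ?_
  · rw [gauss_cx b hb x] at hmain
    refine hmain.congr' ?_
    filter_upwards [eventually_ge_atTop 1] with N hN
    have hN0 : (0 : ℝ) < N := by exact_mod_cast hN
    have hsN : 0 < √(N : ℝ) := Real.sqrt_pos.2 hN0
    have hN1 : (N : ℂ) ≠ 0 := by exact_mod_cast hN0.ne'
    have hsN1 : ((√(N : ℝ) : ℝ) : ℂ) ≠ 0 := by exact_mod_cast hsN.ne'
    rw [hf]
    simp only
    rw [tsum_int_range (g N) N, hg, sum_mul, Complex.real_smul, mul_sum]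
    refine sum_congr rfl fun m _ => ?_
    simp only
    push_cast
    rw [mul_pow]
    field_simp
  · -- domination
    filter_upwards [eventually_ge_atTop (N₀ + 1)] with N hN m
    have hN0 : (0 : ℝ) < N := by exact_mod_cast (by omega : 0 < N)
    rw [hf]
    simp only
    by_cases hm : 0 ≤ m ∧ m.toNat < N
    · rw [if_pos hm]
      have hz : ((m.toNat : ℕ) : ℝ) = (m : ℝ) := by
        have : ((m.toNat : ℤ) : ℝ) = (m : ℝ) := by rw [Int.toNat_of_nonneg hm.1]
        rwa [Int.cast_natCast] at this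
      have h1 := hB N (by omega) m.toNat hm.2
      have hS0 : 0 ≤ S N m.toNat := by
        rw [S_eq]
        refine sum_nonneg fun j hj => (tm_pos N _ j ?_).le
        have := mem_range.mp hj
        omega
      have h2 : 0 ≤ S N m.toNat * Real.exp (-(4 * N * LL (3 / 4))) := by positivity
      rw [hg]
      simp only
      rw [norm_mul, ex_norm, mul_one, Complex.norm_real, Real.norm_eq_abs, abs_of_nonneg
        (by positivity)]
      have h3 : (2 * (m.toNat : ℝ) + 1) / N ≤ 3 := by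
        rw [div_le_iff₀ hN0]
        have : (m.toNat : ℝ) + 1 ≤ N := by exact_mod_cast hm.2
        linarith
      have h4 : (S N m.toNat * Real.exp (-(4 * N * LL (3 / 4)))) ^ b ≤
          C ^ b * Real.exp (-(Real.pi / 4) * ((m - 1 / 2 * N) ^ 2 / N)) := by
        calc (S N m.toNat * Real.exp (-(4 * N * LL (3 / 4)))) ^ b
            ≤ (C * Real.exp (-(Real.pi / 4) * ((m.toNat - 1 / 2 * N) ^ 2 / N))) ^ b :=
              pow_le_pow_left₀ h2 h1 b
          _ = C ^ b * Real.exp (-(Real.pi / 4) * ((m - 1 / 2 * N) ^ 2 / N)) ^ b := by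
              rw [mul_pow, hz]
          _ ≤ C ^ b * Real.exp (-(Real.pi / 4) * ((m - 1 / 2 * N) ^ 2 / N)) := by
              apply mul_le_mul_of_nonneg_left _ (by positivity)
              apply pow_le_of_le_one (Real.exp_pos _).le _ (by omega)
              rw [Real.exp_le_one_iff]
              have : 0 ≤ ((m : ℝ) - 1 / 2 * N) ^ 2 / N := by positivity
              nlinarith
      calc (2 * (m.toNat : ℝ) + 1) / N * (S N m.toNat * Real.exp (-(4 * N * LL (3 / 4)))) ^ b
          ≤ 3 * (C ^ b * Real.exp (-(Real.pi / 4) * ((m - 1 / 2 * N) ^ 2 / N))) :=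
            mul_le_mul h3 h4 (by positivity) (by norm_num)
        _ = 3 * C ^ b * Real.exp (-(Real.pi / 4) * ((m - 1 / 2 * N) ^ 2 / N)) := by ring
    · rw [if_neg hm, norm_zero]; positivity
  · -- pointwise limit
    intro t m hm
    obtain ⟨h0, h1⟩ := toNat_tendsto m (1 / 2) t (by norm_num) hm
    have h2 := S_tendsto hST hSUM hTAY hCO (fun N => (m N).toNat) t h1
    have hr := ratio_of_sq _ _ _ h1
    have h3 : Tendsto (fun N : ℕ => (2 * ((m N).toNat : ℝ) + 1) / N) atTop (𝓝 1) := by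
      have h4 := (hr.const_mul 2).add (tendsto_const_div_atTop_nhds_zero_nat (1 : ℝ))
      have h5 : (2 * (1 / 2) + 0 : ℝ) = 1 := by norm_num
      rw [h5] at h4
      refine h4.congr fun N => ?_
      ring
    have hsq : Tendsto (fun N : ℕ => √(N : ℝ)) atTop atTop :=
      Real.tendsto_sqrt_atTop.comp tendsto_natCast_atTop_atTop
    have h6 : Tendsto (fun N : ℕ => uu N (m N).toNat ^ 2 / N) atTop (𝓝 (t ^ 2)) := by
      have h7 := (tendsto_inv_atTop_zero.comp hsq).const_mul (1 / 2 : ℝ)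
      rw [mul_zero] at h7
      have h8 := (h1.add h7).pow 2
      rw [add_zero] at h8
      refine h8.congr' ?_
      filter_upwards [eventually_ge_atTop 1] with N hN
      have hN0 : (0 : ℝ) < N := by exact_mod_cast hN
      have hs : 0 < √(N : ℝ) := Real.sqrt_pos.2 hN0
      have hss : √(N : ℝ) ^ 2 = N := Real.sq_sqrt hN0.le
      simp only [Function.comp]
      have : (((m N).toNat : ℝ) - 1 / 2 * N) / √N + 1 / 2 * (√(N : ℝ))⁻¹ =
        uu N (m N).toNat / √N := by unfold uu; field_simp; ring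
      rw [this, div_pow, hss]
    have h9 : Tendsto (fun N : ℕ => ex (x * (uu N (m N).toNat ^ 2 / N))) atTop
        (𝓝 (ex (x * t ^ 2))) := (ex_cont.tendsto _).comp (h6.const_mul x)
    have h10 := (Complex.continuous_ofReal.tendsto _).comp (h3.mul (h2.pow b))
    rw [one_mul] at h10
    refine (h10.mul h9).congr' ?_
    have h11 := hr.eventually (eventually_lt_nhds (show (1 / 2 : ℝ) < 1 by norm_num))
    filter_upwards [h0, h11, eventually_ge_atTop 1] with N h0 h11 hN
    have hN0 : (0 : ℝ) < N := by exact_mod_cast hN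
    have h5 : (m N).toNat < N := by
      rw [div_lt_one hN0] at h11
      exact_mod_cast h11
    rw [hf, hg]
    simp only [Function.comp]
    rw [if_pos ⟨h0, h5⟩]

end Pool.Agent.W719.BS
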