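import Pool.Agent.W358.BSTay

set_option autoImplicit false

namespace Pool.Agent.W719.BS

open Finset Filter Topology MeasureTheory
open Pool.Agent.W358.BSTay (gg gg_int)

theorem LL_half : LL (1 / 2) = 0 := by
  have h := GapVol.lob_half
  unfold GapVol.lob at h
  unfold LL
  have h1 := intervalIntegral.integral_comp_mul_left (a := 0) (b := 1 / 2) (c := Real.pi)
    (fun t => Real.log (2 * Real.sin t)) Real.pi_pos.ne'
  rw [h1]
  have h2 : ∀ t : ℝ, Real.log |2 * Real.sin t| = Real.log (2 * Real.sin t) := fun t =>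
    Real.log_abs _
  simp only [h2] at h
  have h3 : Real.pi * (1 / 2) = Real.pi / 2 := by ring
  rw [mul_zero, h3]
  have h4 : ∫ t in (0:ℝ)..(Real.pi / 2), Real.log (2 * Real.sin t) = 0 := by linarith
  rw [h4, smul_zero]

theorem LL_cont : Continuous LL := by
  have : LL = fun x => ∫ t in (0:ℝ)..x, gg t := rfl
  rw [this]
  exact intervalIntegral.continuous_primitive gg_int 0

theorem LL_sub' (x y : ℝ) : LL y - LL x = ∫ t in x..y, gg t := by
  unfold LL
  exact intervalIntegral.integral_interval_sub_left (gg_int _ _) (gg_int _ _)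

theorem LL_refl (x : ℝ) : LL (1 / 2 + x) = -LL (1 / 2 - x) := by
  have h1 : LL (1 / 2 + x) - LL (1 / 2) = ∫ t in (1 / 2)..(1 / 2 + x), gg t := LL_sub' _ _
  have h2 : LL (1 / 2) - LL (1 / 2 - x) = ∫ t in (1 / 2 - x)..(1 / 2), gg t := LL_sub' _ _
  have h3 : ∫ t in (1 / 2)..(1 / 2 + x), gg t = ∫ t in (1 / 2 - x)..(1 / 2), gg t := by
    have h4 := intervalIntegral.integral_comp_sub_left (a := 1 / 2) (b := 1 / 2 + x) gg 1
    have h5 : (1 : ℝ) - (1 / 2 + x) = 1 / 2 - x := by ring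
    have h6 : (1 : ℝ) - 1 / 2 = 1 / 2 := by norm_num
    rw [h5, h6] at h4
    rw [← h4]
    refine intervalIntegral.integral_congr fun t _ => ?_
    unfold gg
    show _ = Real.log (2 * Real.sin (Real.pi * (1 - t)))
    have : Real.pi * (1 - t) = Real.pi - Real.pi * t := by ring
    rw [this, Real.sin_pi_sub]
  rw [LL_half] at h1 h2
  linarith

theorem LL_quarter : LL (1 / 4) = -LL (3 / 4) := by
  have h := LL_refl (1 / 4)
  have h1 : (1 / 2 + 1 / 4 : ℝ) = 3 / 4 := by norm_num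
  have h2 : (1 / 2 - 1 / 4 : ℝ) = 1 / 4 := by norm_num
  rw [h1, h2] at h
  linarith

/-- `8 π LL (3/4) = -8 ∫_0^{π/4} log (2 sin t) dt` -/
theorem LL_vol : 8 * Real.pi * LL (3 / 4) =
    -8 * ∫ t in (0:ℝ)..(Real.pi / 4), Real.log (2 * Real.sin t) := by
  have h0 : LL (3 / 4) = -LL (1 / 4) := by rw [LL_quarter]; ring
  have h1 := intervalIntegral.integral_comp_mul_left (a := 0) (b := 1 / 4) (c := Real.pi)
    (fun t => Real.log (2 * Real.sin t)) Real.pi_pos.ne'
  have h2 : LL (1 / 4) = Real.pi⁻¹ • ∫ t in (Real.pi * 0)..(Real.pi * (1 / 4)),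
    Real.log (2 * Real.sin t) := h1
  rw [h0, h2]
  have h3 : Real.pi * (1 / 4) = Real.pi / 4 := by ring
  rw [mul_zero, h3, smul_eq_mul]
  have := Real.pi_pos.ne'
  field_simp

/-- Gaussian sums -/
theorem gauss_sum_le (κ : ℝ) (hκ : 0 < κ) : ∃ C : ℝ, 0 < C ∧ ∀ N : ℕ, 1 ≤ N → ∀ x : ℝ, ∀ M : ℕ,
    ∑ m ∈ range M, Real.exp (-κ * ((m - x) ^ 2 / N)) ≤ C * √N := by
  refine ⟨Real.exp κ * √(Real.pi / (κ / 2)), by positivity, fun N hN x M => ?_⟩
  have hN0 : (0 : ℝ) < N := by exact_mod_cast hN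
  have hN1 : (1 : ℝ) ≤ N := by exact_mod_cast hN
  set f : ℝ → ℝ := fun s => Real.exp κ * Real.exp (-(κ / (2 * N)) * (s - x) ^ 2) with hf
  have hfc : Continuous f := by rw [hf]; fun_prop
  have hb : 0 < κ / (2 * N) := by positivity
  have hfi : Integrable f := by
    have h1 := (integrable_exp_neg_mul_sq hb).comp_sub_right x
    exact h1.const_mul _
  have hterm : ∀ m ∈ range M, Real.exp (-κ * (((m : ℝ) - x) ^ 2 / N)) ≤
      ∫ s in ((m : ℕ) : ℝ)..((m + 1 : ℕ) : ℝ), f s := by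
    intro m _
    have h1 : ∫ s in ((m : ℕ) : ℝ)..((m + 1 : ℕ) : ℝ), Real.exp (-κ * (((m : ℝ) - x) ^ 2 / N)) =
        Real.exp (-κ * (((m : ℝ) - x) ^ 2 / N)) := by
      rw [intervalIntegral.integral_const]; push_cast; simp
    rw [← h1]
    refine intervalIntegral.integral_mono_on (by push_cast; linarith)
      (intervalIntegrable_const) (hfc.intervalIntegrable _ _) fun s hs => ?_
    rw [hf]
    simp only
    rw [← Real.exp_add]
    apply Real.exp_le_exp.mpr
    have hs1 := hs.1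
    have hs2 : s ≤ m + 1 := by have := hs.2; push_cast at this; exact this
    have h2 : (s - x) ^ 2 ≤ 2 * ((m : ℝ) - x) ^ 2 + 2 := by
      have h3 : 0 ≤ s - m := by linarith
      have h4 : s - m ≤ 1 := by linarith
      nlinarith [sq_nonneg ((m : ℝ) - x - (s - m))]
    have h5 : κ / (2 * N) * (s - x) ^ 2 ≤ κ / (2 * N) * (2 * ((m : ℝ) - x) ^ 2 + 2) :=
      mul_le_mul_of_nonneg_left h2 hb.le
    have h6 : κ / (2 * N) * (2 * ((m : ℝ) - x) ^ 2 + 2) = κ * (((m : ℝ) - x) ^ 2 / N) + κ / N := by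
      field_simp
    have h7 : κ / N ≤ κ := div_le_self hκ.le hN1
    linarith
  calc ∑ m ∈ range M, Real.exp (-κ * ((m - x) ^ 2 / N))
      ≤ ∑ m ∈ range M, ∫ s in ((m : ℕ) : ℝ)..((m + 1 : ℕ) : ℝ), f s := sum_le_sum hterm
    _ = ∫ s in ((0 : ℕ) : ℝ)..((M : ℕ) : ℝ), f s := by
        rw [intervalIntegral.sum_integral_adjacent_intervals
          (a := fun k : ℕ => (k : ℝ)) fun k _ => hfc.intervalIntegrable _ _]
    _ ≤ ∫ s, f s := by
        rw [intervalIntegral.integral_of_le (by exact_mod_cast Nat.zero_le M)]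
        refine setIntegral_le_integral hfi (Filter.Eventually.of_forall fun s => ?_)
        rw [hf]; simp only; positivity
    _ = Real.exp κ * √(Real.pi / (κ / 2)) * √N := by
        rw [hf, integral_const_mul,
          integral_sub_right_eq_self (fun s => Real.exp (-(κ / (2 * N)) * s ^ 2)) x,
          integral_gaussian, mul_assoc, ← Real.sqrt_mul (by positivity)]
        congr 2
        field_simp

end Pool.Agent.W719.BS
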