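import Pool.Agent.W719.BS.Bound

set_option autoImplicit false

namespace Pool.Agent.W719.BS

open Finset Filter Topology MeasureTheory

theorem tsum_int_range {E : Type} [NormedAddCommGroup E] (g : ℕ → E) (M : ℕ) :
    ∑' m : ℤ, (if 0 ≤ m ∧ m.toNat < M then g m.toNat else 0) = ∑ m ∈ range M, g m := by
  rw [tsum_eq_sum (s := (range M).map Nat.castEmbedding), Finset.sum_map]
  · refine sum_congr rfl fun m hm => ?_
    have hm := mem_range.mp hm
    simp [hm]
  · intro m hm
    rw [if_neg]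
    rintro ⟨h1, h2⟩
    apply hm
    rw [Finset.mem_map]
    refine ⟨m.toNat, mem_range.mpr h2, ?_⟩
    simp [h1]

theorem toNat_tendsto (m : ℕ → ℤ) (x s : ℝ) (hx : 0 < x)
    (h : Tendsto (fun N : ℕ => ((m N : ℝ) - x * N) / √N) atTop (𝓝 s)) :
    (∀ᶠ N : ℕ in atTop, 0 ≤ m N) ∧
    Tendsto (fun N : ℕ => (((m N).toNat : ℝ) - x * N) / √N) atTop (𝓝 s) := by
  have h1 := ratio_of_sq _ _ _ h
  have h2 := h1.eventually (eventually_gt_nhds (show x / 2 < x by linarith))
  have h3 : ∀ᶠ N : ℕ in atTop, 0 ≤ m N := by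
    filter_upwards [h2, eventually_ge_atTop 1] with N h2 hN
    have hN0 : (0 : ℝ) < N := by exact_mod_cast hN
    have : (0 : ℝ) < m N := by
      rw [lt_div_iff₀ hN0] at h2
      have : 0 < x / 2 * N := by positivity
      linarith
    exact_mod_cast this.le
  refine ⟨h3, h.congr' ?_⟩
  filter_upwards [h3] with N h3
  have : (((m N).toNat : ℤ) : ℝ) = (m N : ℝ) := by rw [Int.toNat_of_nonneg h3]
  rw [Int.cast_natCast] at this
  rw [this]

theorem gauss_shift (t : ℝ) : ∫ r : ℝ, 1 / √2 * Real.exp (-Real.pi * (t + r) ^ 2 -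
    Real.pi * r ^ 2) = 1 / 2 * Real.exp (-(Real.pi / 2) * t ^ 2) := by
  have h1 : ∀ r : ℝ, 1 / √2 * Real.exp (-Real.pi * (t + r) ^ 2 - Real.pi * r ^ 2) =
      (1 / √2 * Real.exp (-(Real.pi / 2) * t ^ 2)) *
        Real.exp (-(2 * Real.pi) * (r - (-(t / 2))) ^ 2) := by
    intro r
    rw [mul_assoc, ← Real.exp_add]
    congr 2
    ring
  simp_rw [h1]
  rw [integral_const_mul,
    integral_sub_right_eq_self (fun s => Real.exp (-(2 * Real.pi) * s ^ 2)) (-(t / 2)),
    integral_gaussian]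
  have hpi := Real.pi_pos
  have h2 : Real.pi / (2 * Real.pi) = 1 / 2 := by field_simp
  have ss : √(2 : ℝ) * √2 = 2 := Real.mul_self_sqrt (by norm_num)
  have s2 : 0 < √(2 : ℝ) := by positivity
  rw [h2, Real.sqrt_div (by norm_num), Real.sqrt_one]
  have : 1 / √(2 : ℝ) * Real.exp (-(Real.pi / 2) * t ^ 2) * (1 / √2) =
    1 / (√2 * √2) * Real.exp (-(Real.pi / 2) * t ^ 2) := by field_simp
  rw [this, ss]

theorem S_tendsto (hST : S_STIR) (hSUM : S_SUM) (hTAY : S_TAY) (hCO : S_CONC) (c : ℕ → ℕ)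
    (t : ℝ) (hc : Tendsto (fun N : ℕ => ((c N : ℝ) - 1 / 2 * N) / √N) atTop (𝓝 t)) :
    Tendsto (fun N : ℕ => S N (c N) * Real.exp (-(4 * N * LL (3 / 4)))) atTop
      (𝓝 (1 / 2 * Real.exp (-(Real.pi / 2) * t ^ 2))) := by
  obtain ⟨C, hC⟩ := tm_le hST hCO
  have hpi := Real.pi_pos
  have hcr := ratio_of_sq _ _ _ hc
  set g : ℕ → ℕ → ℝ := fun N m => √N * tm N (c N) m * Real.exp (-(4 * N * LL (3 / 4))) with hg
  set f : ℕ → ℤ → ℝ := fun N m => if 0 ≤ m ∧ m.toNat < N - c N then g N m.toNat else 0 with hf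
  have hmain := hSUM ℝ f (fun r => 1 / √2 * Real.exp (-Real.pi * (t + r) ^ 2 - Real.pi * r ^ 2))
    (1 / 4) (|C| * Real.exp (Real.pi / 2 * (|t| + 1) ^ 2)) (Real.pi / 4) (by positivity)
    (by fun_prop) ?_ ?_
  · rw [gauss_shift] at hmain
    refine hmain.congr' ?_
    filter_upwards [eventually_ge_atTop 1] with N hN
    have hN0 : (0 : ℝ) < N := by exact_mod_cast hN
    have hsN : 0 < √(N : ℝ) := Real.sqrt_pos.2 hN0
    rw [hf]
    simp only
    rw [tsum_int_range (g N) (N - c N), hg, S_eq, sum_mul, smul_eq_mul, mul_sum]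
    refine sum_congr rfl fun m _ => ?_
    field_simp
  · -- domination
    have e1 := hcr.eventually (eventually_gt_nhds (show (1 / 4 : ℝ) < 1 / 2 by norm_num))
    have e2 := hcr.eventually (eventually_lt_nhds (show (1 / 2 : ℝ) < 3 / 4 by norm_num))
    have e3 : ∀ᶠ N : ℕ in atTop, |((c N : ℝ) - 1 / 2 * N) / √N| < |t| + 1 :=
      hc.abs.eventually (gt_mem_nhds (show |t| < |t| + 1 by linarith))
    filter_upwards [e1, e2, e3, eventually_ge_atTop 6] with N e1 e2 e3 hN m
    have hN0 : (0 : ℝ) < N := by exact_mod_cast (by omega : 0 < N)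
    have hN1 : (6 : ℝ) ≤ N := by exact_mod_cast hN
    have hsN : 0 < √(N : ℝ) := Real.sqrt_pos.2 hN0
    have hss : √(N : ℝ) * √(N : ℝ) = N := Real.mul_self_sqrt hN0.le
    rw [hf]
    simp only
    by_cases hm : 0 ≤ m ∧ m.toNat < N - c N
    · rw [if_pos hm]
      have hcm : c N + m.toNat < N := by omega
      have hz : ((m.toNat : ℕ) : ℝ) = (m : ℝ) := by
        have : ((m.toNat : ℤ) : ℝ) = (m : ℝ) := by rw [Int.toNat_of_nonneg hm.1]
        rwa [Int.cast_natCast] at this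
      have h1 := hC N (c N) m.toNat hcm
      have h2 : 0 ≤ g N m.toNat := by
        have := tm_pos N (c N) m.toNat hcm
        rw [hg]; positivity
      rw [Real.norm_eq_abs, abs_of_nonneg h2]
      refine h1.trans ?_
      rw [mul_assoc |C|, ← Real.exp_add]
      refine mul_le_mul (le_abs_self _) (Real.exp_le_exp.mpr ?_) (Real.exp_pos _).le
        (abs_nonneg _)
      have hP := PP_mid N (c N) hN e1.le e2.le
      have hsin := sin_ge_half _ e1.le e2.le
      rw [hz]
      have a0 : 0 ≤ ((c N : ℝ) - N / 2) ^ 2 / N := by positivity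
      have a2 : 0 ≤ ((m : ℝ) + 1 / 2 - (N - c N) / 2) ^ 2 / N := by positivity
      have a3 : Real.pi * (1 / 2) * (((m : ℝ) + 1 / 2 - (N - c N) / 2) ^ 2 / N) ≤
          Real.pi * Real.sin (Real.pi * (c N / N)) *
            (((m : ℝ) + 1 / 2 - (N - c N) / 2) ^ 2 / N) :=
        mul_le_mul_of_nonneg_right (mul_le_mul_of_nonneg_left hsin hpi.le) a2
      -- compare the squares
      set w : ℝ := ((c N : ℝ) - 1 / 2 * N) / √N with hw
      have hw1 : (c N : ℝ) - 1 / 2 * N = w * √N := by rw [hw]; field_simp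
      set q : ℝ := ((m : ℝ) - 1 / 4 * N) / √N with hq
      have hq1 : (m : ℝ) - 1 / 4 * N = q * √N := by rw [hq]; field_simp
      have hd : (1 / 2 : ℝ) / √N ≤ 1 / 2 := by
        rw [div_le_iff₀ hsN]
        have : 1 ≤ √(N : ℝ) := by
          rw [Real.le_sqrt' (by norm_num)]; linarith
        linarith
      have hd0 : (0 : ℝ) ≤ 1 / 2 / √N := by positivity
      have b1 : ((m : ℝ) - 1 / 4 * N) ^ 2 / N = q ^ 2 := by
        rw [hq1, mul_pow, sq (√(N : ℝ)), hss]; field_simp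
      have b2 : ((m : ℝ) + 1 / 2 - (N - c N) / 2) ^ 2 / N = (q + w / 2 + 1 / 2 / √N) ^ 2 := by
        have : (m : ℝ) + 1 / 2 - (N - c N) / 2 = (q + w / 2 + 1 / 2 / √N) * √N := by
          have h5 : (1 / 2 / √N) * √(N : ℝ) = 1 / 2 := by field_simp
          have : (q + w / 2 + 1 / 2 / √N) * √N = q * √N + w * √N / 2 + (1 / 2 / √N) * √N := by
            ring
          rw [this, h5, ← hw1, ← hq1]; ring
        rw [this, mul_pow, sq (√(N : ℝ)), hss]; field_simp
      rw [b1]
      rw [b2] at a2 a3 ⊢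
      set d : ℝ := 1 / 2 / √N with hdd
      have hw2 : |w| ≤ |t| + 1 := e3.le
      have hB : (w / 2 + d) ^ 2 ≤ (|t| + 1) ^ 2 := by
        apply sq_le_sq'
        · have := neg_abs_le w; linarith [abs_nonneg t]
        · have := le_abs_self w; linarith [abs_nonneg t]
      have hC2 : q ^ 2 ≤ 2 * (q + w / 2 + d) ^ 2 + 2 * (w / 2 + d) ^ 2 := by
        nlinarith [sq_nonneg (q + 2 * (w / 2 + d))]
      have p1 : Real.pi / 4 * q ^ 2 ≤
          Real.pi / 4 * (2 * (q + w / 2 + d) ^ 2 + 2 * (|t| + 1) ^ 2) :=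
        mul_le_mul_of_nonneg_left (by linarith) (by positivity)
      have p2 : 0 ≤ Real.pi / 2 * (((c N : ℝ) - N / 2) ^ 2 / N) := by positivity
      set X := (q + w / 2 + d) ^ 2
      set Y := (|t| + 1) ^ 2
      set Z := ((c N : ℝ) - N / 2) ^ 2 / N
      set V := Real.pi * Real.sin (Real.pi * (c N / N)) * X
      have p3 : -(Real.pi / 2) * Z - V + PP N (c N) ≤ -(Real.pi / 2 * X) := by linarith
      have p4 : Real.pi / 4 * (2 * X + 2 * Y) = Real.pi / 2 * X + Real.pi / 2 * Y := by ring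
      linarith
    · rw [if_neg hm, norm_zero]; positivity
  · -- pointwise limit
    intro r m hm
    obtain ⟨h0, h1⟩ := toNat_tendsto m (1 / 4) r (by norm_num) hm
    have h2 := tm_tendsto hST hTAY c (fun N => (m N).toNat) t r hc h1
    refine h2.congr' ?_
    have h3 := (ratio_of_sq _ _ _ hc).add (ratio_of_sq _ _ _ h1)
    have h4 := h3.eventually (eventually_lt_nhds (show (1 / 2 + 1 / 4 : ℝ) < 1 by norm_num))
    filter_upwards [h0, h4, eventually_ge_atTop 1] with N h0 h4 hN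
    have hN0 : (0 : ℝ) < N := by exact_mod_cast hN
    have h5 : c N + (m N).toNat < N := by
      rw [← add_div, div_lt_one hN0] at h4
      exact_mod_cast h4
    rw [hf]
    simp only
    rw [if_pos ⟨h0, by omega⟩]

end Pool.Agent.W719.BS
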