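import Pool.Agent.W719.BS.Fin
import Pool.Agent.W358.BSRot
import Pool.Agent.W358.BSVec
import Pool.Agent.W358.BSTr
import Pool.Agent.W272.BSKAPP
import Pool.Agent.W272.BSKAPN
import Pool.Agent.W466.BS.Belt
import Pool.Agent.W749.BS.Cont
import Pool.Agent.W360.BS.Sum
import Pool.Agent.W51.BS.Stir
import Pool.Agent.W51.BS.Conc

/-!
# Belted sums of Whitehead links: exact leading asymptotics at the root of unity
-/

set_option autoImplicit false

namespace Pool.Agent.W719.BS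

open Finset Filter Topology MeasureTheory

theorem JL_value (w : List Piece) (N : ℕ) (h : 0 < N) :
    JL w N (v0 N) = ex (N * (9 * nk w / 8 - ns w / 4)) *
      (ex (-(nk w / 4 + ns w / 2)) * ex ((2 + 9 * nk w / 8 + 3 * ns w / 4) / N)) *
      ∑ c ∈ range N, ((2 * c + 1 : ℝ) * S N c ^ nb w : ℝ) *
        ex ((ns w - nk w / 2) * (uu N c ^ 2 / N)) :=
  JL_formula Pool.Agent.W358.BSRot.rot Pool.Agent.W358.BSVec.vec Pool.Agent.W272.BSK.SKAPP
    Pool.Agent.W272.BSK.SKAPN Pool.Agent.W466.BS.belt Pool.Agent.W358.BSTr.tr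
    Pool.Agent.W749.BS.s_CONT w N h

theorem JL_asymp (w : List Piece) (hb : 1 ≤ nb w) :
    Tendsto (fun N : ℕ => JL w N (v0 N) / (ex (N * (9 * nk w / 8 - ns w / 4)) *
      ((N * √N * Real.exp (4 * N * LL (3 / 4)) ^ nb w : ℝ) : ℂ))) atTop
      (𝓝 (ex (-(nk w / 4 + ns w / 2)) * lead (nb w) (ns w - nk w / 2))) := by
  have h1 := sum_tendsto Pool.Agent.W51.BS.task_stir Pool.Agent.W360.BS.sSUM
    Pool.Agent.W358.BSTay.tay Pool.Agent.W51.BS.task_conc (nb w) hb (ns w - nk w / 2)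
  have h2 : Tendsto (fun N : ℕ => (2 + 9 * (nk w : ℝ) / 8 + 3 * ns w / 4) / N) atTop (𝓝 0) :=
    tendsto_const_div_atTop_nhds_zero_nat _
  have h3 := (ex_cont.tendsto 0).comp h2
  rw [ex_zero] at h3
  have h4 := (h3.const_mul (ex (-(nk w / 4 + ns w / 2)))).mul h1
  rw [mul_one] at h4
  refine h4.congr' ?_
  filter_upwards [eventually_ge_atTop 1] with N hN
  rw [JL_value w N (by omega)]
  have hN0 : (0 : ℝ) < N := by exact_mod_cast hN
  have hsN : 0 < √(N : ℝ) := Real.sqrt_pos.2 hN0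
  have hN1 : (N : ℂ) ≠ 0 := by exact_mod_cast hN0.ne'
  have hsN1 : ((√(N : ℝ) : ℝ) : ℂ) ≠ 0 := by exact_mod_cast hsN.ne'
  have he := ex_ne (N * (9 * nk w / 8 - ns w / 4))
  have hexp : Real.exp (-(4 * N * LL (3 / 4))) = (Real.exp (4 * N * LL (3 / 4)))⁻¹ :=
    Real.exp_neg _
  have hE : ((Real.exp (4 * N * LL (3 / 4)) : ℝ) : ℂ) ≠ 0 := by
    exact_mod_cast (Real.exp_pos _).ne'
  simp only [Function.comp]
  generalize ex (N * (9 * nk w / 8 - ns w / 4)) = A at he ⊢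
  generalize ex (-(nk w / 4 + ns w / 2)) = B
  generalize ex ((2 + 9 * (nk w : ℝ) / 8 + 3 * ns w / 4) / N) = C
  generalize (∑ c ∈ range N, ((2 * c + 1 : ℝ) * S N c ^ nb w : ℝ) *
        ex ((ns w - nk w / 2) * (uu N c ^ 2 / N)) : ℂ) = T
  rw [hexp]
  generalize Real.exp (4 * N * LL (3 / 4)) = E at hE ⊢
  push_cast
  field_simp
  rw [mul_assoc (B * C * T), ← mul_pow, one_div, inv_mul_cancel₀ hE, one_pow, mul_one]

end Pool.Agent.W719.BS
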