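import Pool.Agent.W719.BS.V1

set_option autoImplicit false

namespace Pool.Agent.W719.BS

open Matrix Finset Filter Topology Pool.Agent.H550R3.Jones
open scoped Kronecker

/-- `e^(π i x)` -/
noncomputable def ex (x : ℝ) : ℂ := Complex.exp ((Real.pi * x : ℝ) * Complex.I)

theorem ex_add (x y : ℝ) : ex (x + y) = ex x * ex y := by
  unfold ex; rw [← Complex.exp_add]; congr 1; push_cast; ring

theorem ex_zero : ex 0 = 1 := by simp [ex]

theorem ex_neg (x : ℝ) : ex (-x) = (ex x)⁻¹ := by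
  unfold ex; rw [← Complex.exp_neg]; congr 1; push_cast; ring

theorem ex_norm (x : ℝ) : ‖ex x‖ = 1 := by
  unfold ex; rw [Complex.norm_exp_ofReal_mul_I]

theorem ex_ne (x : ℝ) : ex x ≠ 0 := by
  intro h; have := ex_norm x; rw [h] at this; simp at this

theorem ex_conj (x : ℝ) : (starRingEnd ℂ) (ex x) = ex (-x) := by
  unfold ex; rw [← Complex.exp_conj]; congr 1; simp

theorem ex_nat_mul (n : ℕ) (x : ℝ) : ex (n * x) = ex x ^ n := by
  unfold ex; rw [← Complex.exp_nat_mul]; congr 1; push_cast; ring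

theorem ex_int_mul (n : ℤ) (x : ℝ) : ex (n * x) = ex x ^ n := by
  unfold ex; rw [← Complex.exp_int_mul]; congr 1; push_cast; ring

theorem ex_one : ex 1 = -1 := by
  unfold ex; simp [Complex.exp_pi_mul_I]

theorem ex_half : ex (1 / 2) = Complex.I := by
  unfold ex
  rw [Complex.exp_mul_I, ← Complex.ofReal_cos, ← Complex.ofReal_sin]
  have : Real.pi * (1 / 2) = Real.pi / 2 := by ring
  rw [this, Real.cos_pi_div_two, Real.sin_pi_div_two]; simp

theorem v0_ex (N : ℕ) : v0 N = ex (1 / N) := by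
  unfold v0 ex; congr 1; push_cast; ring

theorem neg_one_ex (n : ℕ) : (-1 : ℂ) ^ n = ex n := by
  have := ex_nat_mul n 1
  rw [mul_one, ex_one] at this; exact this.symm

theorem I_ex (n : ℕ) : Complex.I ^ n = ex (n / 2) := by
  have := ex_nat_mul n (1 / 2)
  rw [ex_half] at this; rw [← this]; congr 1; ring

/-- `u = c + 1/2 - N/2` -/
noncomputable def uu (N c : ℕ) : ℝ := c + 1 / 2 - N / 2

noncomputable def th1 (N c : ℕ) : ℝ := 9 * N / 8 - 1 / 4 + 9 / (8 * N) - uu N c ^ 2 / (2 * N)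

noncomputable def th2 (N c : ℕ) : ℝ := -(1 / 2) - N / 4 + 3 / (4 * N) + uu N c ^ 2 / N

theorem eig_ct (N c : ℕ) (h : c < N) : eig N (v0 N) c (.clasp true) = S N c * ex (th1 N c) := by
  have hN : (N : ℝ) ≠ 0 := by exact_mod_cast (by omega : N ≠ 0)
  show kapP N (v0 N) c = _
  rw [kapP_v0 N c h, v0_ex, ← ex_int_mul, neg_one_ex, I_ex, ← ex_add, ← ex_add, mul_comm]
  congr 2
  have h2 : (2 : ℝ) * ((c * (c + 1) / 2 : ℕ) : ℝ) = c * (c + 1) := by
    have : 2 * (c * (c + 1) / 2) = c * (c + 1) := Nat.mul_div_cancel' (Nat.even_mul_succ_self c).two_dvd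
    exact_mod_cast this
  have h3 : ((c * (c + 1) / 2 : ℕ) : ℝ) = c * (c + 1) / 2 := by linarith
  rw [Int.cast_sub, Int.cast_one, Int.cast_natCast, h3]
  unfold th1 uu
  field_simp
  ring

theorem eig_cf (N c : ℕ) (h : c < N) :
    eig N (v0 N) c (.clasp false) = S N c * ex (-th1 N c) := by
  have h1 := eig_ct N c h
  show kapP N (v0 N)⁻¹ c = _
  rw [kapP_conj]
  have h2 : kapP N (v0 N) c = S N c * ex (th1 N c) := h1
  rw [h2, map_mul, Complex.conj_ofReal, ex_conj]

theorem eig_tt (N c : ℕ) (h : c < N) : eig N (v0 N) c (.twist true) = ex (th2 N c) := by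
  have hN : (N : ℝ) ≠ 0 := by exact_mod_cast (by omega : N ≠ 0)
  show (-1) ^ (N - 1 - c) * v0 N ^ ((c : ℤ) * (c + 1) - ((N : ℤ) ^ 2 - 1)) = _
  rw [v0_ex, ← ex_int_mul, neg_one_ex, ← ex_add]
  congr 1
  have e1 : ((N - 1 - c : ℕ) : ℝ) = N - 1 - c := by
    rw [Nat.cast_sub (by omega), Nat.cast_sub (by omega)]; simp
  rw [e1]
  push_cast
  unfold th2 uu
  field_simp
  ring

theorem eig_tf (N c : ℕ) (h : c < N) : eig N (v0 N) c (.twist false) = ex (-th2 N c) := by
  have hN : (N : ℝ) ≠ 0 := by exact_mod_cast (by omega : N ≠ 0)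
  show (-1) ^ (N - 1 - c) * v0 N ^ (-((c : ℤ) * (c + 1) - ((N : ℤ) ^ 2 - 1))) = _
  have h1 : (-1 : ℂ) ^ (N - 1 - c) = ex (-((N - 1 - c : ℕ) : ℝ)) := by
    rw [ex_neg, ← neg_one_ex, ← inv_pow]; norm_num
  rw [v0_ex, ← ex_int_mul, h1, ← ex_add]
  congr 1
  have e1 : ((N - 1 - c : ℕ) : ℝ) = N - 1 - c := by
    rw [Nat.cast_sub (by omega), Nat.cast_sub (by omega)]; simp
  rw [e1]
  push_cast
  unfold th2 uu
  field_simp
  ring

/-- the number of clasps -/
def nb (w : List Piece) : ℕ := w.count (.clasp true) + w.count (.clasp false)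

/-- positive clasps minus negative clasps -/
def nk (w : List Piece) : ℤ := w.count (.clasp true) - w.count (.clasp false)

/-- positive half twists minus negative half twists -/
def ns (w : List Piece) : ℤ := w.count (.twist true) - w.count (.twist false)

theorem prod_v0 (N c : ℕ) (h : c < N) (w : List Piece) :
    (w.map (eig N (v0 N) c)).prod =
      (S N c : ℂ) ^ nb w * ex (nk w * th1 N c + ns w * th2 N c) := by
  induction w with
  | nil => simp [nb, nk, ns, ex_zero]
  | cons p w ih =>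
    rw [List.map_cons, List.prod_cons, ih]
    match p with
    | .clasp true =>
      have e1 : nb (.clasp true :: w) = nb w + 1 := by simp [nb]; omega
      have e2 : nk (.clasp true :: w) = nk w + 1 := by simp [nk]; omega
      have e3 : ns (.clasp true :: w) = ns w := by simp [ns]
      rw [e1, e2, e3, eig_ct N c h]
      have e4 : ((nk w + 1 : ℤ) : ℝ) * th1 N c + ns w * th2 N c =
        th1 N c + (nk w * th1 N c + ns w * th2 N c) := by push_cast; ring
      rw [e4, ex_add (th1 N c)]; ring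
    | .clasp false =>
      have e1 : nb (.clasp false :: w) = nb w + 1 := by simp [nb]; omega
      have e2 : nk (.clasp false :: w) = nk w - 1 := by simp [nk]; omega
      have e3 : ns (.clasp false :: w) = ns w := by simp [ns]
      rw [e1, e2, e3, eig_cf N c h]
      have e4 : ((nk w - 1 : ℤ) : ℝ) * th1 N c + ns w * th2 N c =
        -th1 N c + (nk w * th1 N c + ns w * th2 N c) := by push_cast; ring
      rw [e4, ex_add (-th1 N c)]; ring
    | .twist true =>
      have e1 : nb (.twist true :: w) = nb w := by simp [nb]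
      have e2 : nk (.twist true :: w) = nk w := by simp [nk]
      have e3 : ns (.twist true :: w) = ns w + 1 := by simp [ns]; omega
      rw [e1, e2, e3, eig_tt N c h]
      have e4 : (nk w : ℝ) * th1 N c + ((ns w + 1 : ℤ) : ℝ) * th2 N c =
        th2 N c + (nk w * th1 N c + ns w * th2 N c) := by push_cast; ring
      rw [e4, ex_add (th2 N c)]; ring
    | .twist false =>
      have e1 : nb (.twist false :: w) = nb w := by simp [nb]
      have e2 : nk (.twist false :: w) = nk w := by simp [nk]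
      have e3 : ns (.twist false :: w) = ns w - 1 := by simp [ns]; omega
      rw [e1, e2, e3, eig_tf N c h]
      have e4 : (nk w : ℝ) * th1 N c + ((ns w - 1 : ℤ) : ℝ) * th2 N c =
        -th2 N c + (nk w * th1 N c + ns w * th2 N c) := by push_cast; ring
      rw [e4, ex_add (-th2 N c)]; ring

/-- the exact formula at the root of unity -/
theorem JL_formula (hROT : S_ROT) (hVEC : S_VEC) (hP : S_KAPP) (hN : S_KAPN) (hB : S_BELT)
    (hT : S_TR) (hC : S_CONT) (w : List Piece) (N : ℕ) (h : 0 < N) :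
    JL w N (v0 N) = ex (N * (9 * nk w / 8 - ns w / 4)) *
      (ex (-(nk w / 4 + ns w / 2)) * ex ((2 + 9 * nk w / 8 + 3 * ns w / 4) / N)) *
      ∑ c ∈ range N, ((2 * c + 1 : ℝ) * S N c ^ nb w : ℝ) *
        ex ((ns w - nk w / 2) * (uu N c ^ 2 / N)) := by
  have hN : (N : ℝ) ≠ 0 := by exact_mod_cast (by omega : N ≠ 0)
  rw [JL_v0 hROT hVEC hP ‹_› hB hT hC w N h]
  have e0 : v0 N ^ (-(2 * ((N : ℤ) ^ 2 - 1))) = ex (2 / N) := by
    rw [v0_ex, ← ex_int_mul]
    have : ((-(2 * ((N : ℤ) ^ 2 - 1)) : ℤ) : ℝ) * (1 / N) = ((-N : ℤ) : ℝ) * 2 + 2 / N := by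
      push_cast; field_simp; ring
    rw [this, ex_add, ex_int_mul]
    have h2 : ex 2 = 1 := by
      have : (2 : ℝ) = 1 + 1 := by norm_num
      rw [this, ex_add, ex_one]; norm_num
    rw [h2]; simp
  rw [e0, mul_sum, mul_sum]
  refine sum_congr rfl fun c hc => ?_
  rw [prod_v0 N c (mem_range.mp hc) w]
  have e1 : (nk w : ℝ) * th1 N c + ns w * th2 N c =
      N * (9 * nk w / 8 - ns w / 4) + -(nk w / 4 + ns w / 2) +
      (9 * nk w / 8 + 3 * ns w / 4) / N + (ns w - nk w / 2) * (uu N c ^ 2 / N) := by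
    unfold th1 th2
    field_simp
    ring
  have e2 : (2 + 9 * (nk w : ℝ) / 8 + 3 * ns w / 4) / N =
      2 / N + (9 * nk w / 8 + 3 * ns w / 4) / N := by ring
  rw [e1, e2]
  simp only [ex_add]
  push_cast
  ring

end Pool.Agent.W719.BS
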