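import Pool.Agent.W719.BS.LLp
import Pool.Agent.W719.BS.V2

set_option autoImplicit false

namespace Pool.Agent.W719.BS

open Finset Filter Topology MeasureTheory
open Pool.Agent.W358.BSTay (gg gg_int)

/-- the term of `S` -/
noncomputable def tm (N c m : ℕ) : ℝ := (D N (c + m) / D N m) ^ 2 / D N c

theorem S_eq (N c : ℕ) : S N c = ∑ m ∈ range (N - c), tm N c m := by
  unfold S tm; rw [Finset.sum_div]

theorem tm_pos (N c m : ℕ) (h : c + m < N) : 0 < tm N c m := by
  have h1 := D_pos N (c + m) h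
  have h2 := D_pos N m (by omega)
  have h3 := D_pos N c (by omega)
  unfold tm; positivity

/-- logarithmic error of the midpoint rule -/
noncomputable def er (N n : ℕ) : ℝ :=
  Real.log (D N n) - Real.log N / 2 - N * LL ((n + 1 / 2) / N)

/-- the exponent -/
noncomputable def expo (N c m : ℕ) : ℝ :=
  2 * LL (((c + m : ℕ) + 1 / 2) / N) - 2 * LL ((m + 1 / 2) / N) - LL ((c + 1 / 2) / N)

theorem tm_exp (N c m : ℕ) (h : c + m < N) : tm N c m =
    Real.exp (-(Real.log N / 2) + N * expo N c m + (2 * er N (c + m) - 2 * er N m - er N c)) := by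
  have h1 := D_pos N (c + m) h
  have h2 := D_pos N m (by omega)
  have h3 := D_pos N c (by omega)
  have h4 : Real.log (tm N c m) = 2 * Real.log (D N (c + m)) - 2 * Real.log (D N m) -
      Real.log (D N c) := by
    unfold tm
    rw [Real.log_div (by positivity) h3.ne', Real.log_pow, Real.log_div h1.ne' h2.ne']
    push_cast; ring
  rw [← Real.exp_log (tm_pos N c m h), h4]
  congr 1
  unfold er expo
  ring

theorem er_tendsto (hST : S_STIR) (n : ℕ → ℕ) (x : ℝ) (h0 : 0 < x) (h1 : x < 1)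
    (hn : Tendsto (fun N : ℕ => (n N : ℝ) / N) atTop (𝓝 x)) :
    Tendsto (fun N => er N (n N)) atTop (𝓝 0) := by
  set δ := min x (1 - x) / 2 with hδ
  have hδ0 : 0 < δ := by
    have : 0 < min x (1 - x) := lt_min h0 (by linarith)
    positivity
  obtain ⟨C, hC⟩ := hST.2 δ hδ0
  have hx1 : δ < x := by
    have : min x (1 - x) ≤ x := min_le_left _ _
    linarith
  have hx2 : x < 1 - δ := by
    have : min x (1 - x) ≤ 1 - x := min_le_right _ _
    linarith
  have e1 := hn.eventually (eventually_gt_nhds hx1)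
  have e2 := hn.eventually (eventually_lt_nhds hx2)
  have h3 : Tendsto (fun N : ℕ => C / (N : ℝ)) atTop (𝓝 0) :=
    tendsto_const_div_atTop_nhds_zero_nat C
  refine squeeze_zero_norm' ?_ h3
  filter_upwards [e1, e2, eventually_ge_atTop 1] with N e1 e2 hN
  have hN0 : (0 : ℝ) < N := by exact_mod_cast hN
  have f1 : δ * N < n N := by rwa [lt_div_iff₀ hN0] at e1
  have f2 : (n N : ℝ) < (1 - δ) * N := by rwa [div_lt_iff₀ hN0] at e2
  have f3 : n N < N := by
    have : (n N : ℝ) < N := by nlinarith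
    exact_mod_cast this
  rw [Real.norm_eq_abs]
  exact hC N (n N) f3 f1.le (by linarith)

/-- if `(n N - x N) / √N → s` then `n N / N → x` -/
theorem ratio_of_sq (n : ℕ → ℝ) (x s : ℝ)
    (h : Tendsto (fun N : ℕ => (n N - x * N) / √N) atTop (𝓝 s)) :
    Tendsto (fun N : ℕ => n N / N) atTop (𝓝 x) := by
  have hsq : Tendsto (fun N : ℕ => √(N : ℝ)) atTop atTop :=
    Real.tendsto_sqrt_atTop.comp tendsto_natCast_atTop_atTop
  have h1 := h.mul (tendsto_inv_atTop_zero.comp hsq)
  rw [mul_zero] at h1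
  have h2 := h1.add_const x
  rw [zero_add] at h2
  refine h2.congr' ?_
  filter_upwards [eventually_ge_atTop 1] with N hN
  have hN0 : (0 : ℝ) < N := by exact_mod_cast hN
  have hs : 0 < √(N : ℝ) := Real.sqrt_pos.2 hN0
  have hss : √(N : ℝ) * √(N : ℝ) = N := Real.mul_self_sqrt hN0.le
  simp only [Function.comp]
  rw [← div_eq_mul_inv, div_div, hss]
  field_simp
  ring

/-- expansion at `x` -/
theorem LL_exp (hTAY : S_TAY) (x : ℝ) (h0 : 0 < x) (h1 : x < 1) (n : ℕ → ℝ) (s : ℝ)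
    (h : Tendsto (fun N : ℕ => (n N - x * N) / √N) atTop (𝓝 s)) :
    Tendsto (fun N : ℕ => (N : ℝ) * (LL ((n N + 1 / 2) / N) - LL x) -
      Real.log (2 * Real.sin (Real.pi * x)) * (n N + 1 / 2 - x * N)) atTop
    (𝓝 (Real.pi * Real.cos (Real.pi * x) / (2 * Real.sin (Real.pi * x)) * s ^ 2)) := by
  have hsq : Tendsto (fun N : ℕ => √(N : ℝ)) atTop atTop :=
    Real.tendsto_sqrt_atTop.comp tendsto_natCast_atTop_atTop
  have h2 : Tendsto (fun N : ℕ => (n N + 1 / 2 - x * N) / √N) atTop (𝓝 s) := by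
    have h3 := (tendsto_inv_atTop_zero.comp hsq).const_mul (1 / 2 : ℝ)
    rw [mul_zero] at h3
    have h4 := h.add h3
    rw [add_zero] at h4
    refine h4.congr fun N => ?_
    simp only [Function.comp]
    ring
  refine (hTAY x h0 h1 _ s h2).congr' ?_
  filter_upwards [eventually_ge_atTop 1] with N hN
  have hN0 : (0 : ℝ) < N := by exact_mod_cast hN
  have hs : 0 < √(N : ℝ) := Real.sqrt_pos.2 hN0
  have hss : √(N : ℝ) * √(N : ℝ) = N := Real.mul_self_sqrt hN0.le
  have e1 : x + (n N + 1 / 2 - x * N) / √N / √N = (n N + 1 / 2) / N := by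
    rw [div_div, hss]; field_simp; ring
  have e2 : √(N : ℝ) * Real.log (2 * Real.sin (Real.pi * x)) * ((n N + 1 / 2 - x * N) / √N) =
      Real.log (2 * Real.sin (Real.pi * x)) * (n N + 1 / 2 - x * N) := by
    field_simp
  rw [e1, e2]

theorem tm_tendsto (hST : S_STIR) (hTAY : S_TAY) (c m : ℕ → ℕ) (t r : ℝ)
    (hc : Tendsto (fun N : ℕ => ((c N : ℝ) - 1 / 2 * N) / √N) atTop (𝓝 t))
    (hm : Tendsto (fun N : ℕ => ((m N : ℝ) - 1 / 4 * N) / √N) atTop (𝓝 r)) :
    Tendsto (fun N : ℕ => √N * tm N (c N) (m N) * Real.exp (-(4 * N * LL (3 / 4)))) atTop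
      (𝓝 (1 / √2 * Real.exp (-Real.pi * (t + r) ^ 2 - Real.pi * r ^ 2))) := by
  have hcm : Tendsto (fun N : ℕ => (((c N + m N : ℕ) : ℝ) - 3 / 4 * N) / √N) atTop
      (𝓝 (t + r)) := by
    refine (hc.add hm).congr fun N => ?_
    push_cast; ring
  have hcr := ratio_of_sq _ _ _ hc
  have hmr := ratio_of_sq _ _ _ hm
  have hcmr := ratio_of_sq _ _ _ hcm
  have E1 := er_tendsto hST c (1 / 2) (by norm_num) (by norm_num) hcr
  have E2 := er_tendsto hST m (1 / 4) (by norm_num) (by norm_num) hmr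
  have E3 := er_tendsto hST (fun N => c N + m N) (3 / 4) (by norm_num) (by norm_num) hcmr
  have T1 := LL_exp hTAY (1 / 2) (by norm_num) (by norm_num) _ t hc
  have T2 := LL_exp hTAY (1 / 4) (by norm_num) (by norm_num) _ r hm
  have T3 := LL_exp hTAY (3 / 4) (by norm_num) (by norm_num) _ (t + r) hcm
  have a1 : Real.pi * (1 / 2) = Real.pi / 2 := by ring
  have a2 : Real.pi * (1 / 4) = Real.pi / 4 := by ring
  have a3 : Real.pi * (3 / 4) = Real.pi - Real.pi / 4 := by ring
  have s2 : 0 < √(2 : ℝ) := by positivity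
  have ss : √(2 : ℝ) * √2 = 2 := Real.mul_self_sqrt (by norm_num)
  have l1 : Real.log (2 * Real.sin (Real.pi * (1 / 2))) = Real.log 2 := by
    rw [a1, Real.sin_pi_div_two, mul_one]
  have l2 : Real.log (2 * Real.sin (Real.pi * (1 / 4))) = Real.log 2 / 2 := by
    rw [a2, Real.sin_pi_div_four]
    have : 2 * (√(2 : ℝ) / 2) = √2 := by ring
    rw [this, Real.log_sqrt (by norm_num)]
  have l3 : Real.log (2 * Real.sin (Real.pi * (3 / 4))) = Real.log 2 / 2 := by
    rw [a3, Real.sin_pi_sub, Real.sin_pi_div_four]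
    have : 2 * (√(2 : ℝ) / 2) = √2 := by ring
    rw [this, Real.log_sqrt (by norm_num)]
  have k1 : Real.pi * Real.cos (Real.pi * (1 / 2)) / (2 * Real.sin (Real.pi * (1 / 2))) * t ^ 2 =
      0 := by
    rw [a1, Real.cos_pi_div_two]; simp
  have k2 : Real.pi * Real.cos (Real.pi * (1 / 4)) / (2 * Real.sin (Real.pi * (1 / 4))) * r ^ 2 =
      Real.pi / 2 * r ^ 2 := by
    rw [a2, Real.cos_pi_div_four, Real.sin_pi_div_four]; field_simp
  have k3 : Real.pi * Real.cos (Real.pi * (3 / 4)) / (2 * Real.sin (Real.pi * (3 / 4))) *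
      (t + r) ^ 2 = -(Real.pi / 2) * (t + r) ^ 2 := by
    rw [a3, Real.cos_pi_sub, Real.sin_pi_sub, Real.cos_pi_div_four, Real.sin_pi_div_four]
    field_simp
  rw [l1, k1] at T1
  rw [l2, k2] at T2
  rw [l3, k3] at T3
  have F := (((T3.const_mul 2).sub (T2.const_mul 2)).sub T1).add
    (((E3.const_mul 2).sub (E2.const_mul 2)).sub E1)
  have G := (F.sub_const (Real.log 2 / 2)).rexp
  have hlim : Real.exp (2 * (-(Real.pi / 2) * (t + r) ^ 2) - 2 * (Real.pi / 2 * r ^ 2) - 0 +
      (2 * 0 - 2 * 0 - 0) - Real.log 2 / 2) =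
      1 / √2 * Real.exp (-Real.pi * (t + r) ^ 2 - Real.pi * r ^ 2) := by
    have h1 : 1 / √(2 : ℝ) = Real.exp (-(Real.log 2 / 2)) := by
      rw [Real.exp_neg, ← Real.log_sqrt (by norm_num), Real.exp_log s2, one_div]
    rw [h1, ← Real.exp_add]
    congr 1
    ring
  rw [hlim] at G
  refine G.congr' ?_
  have e1 := hcmr.eventually (eventually_lt_nhds (show (3 / 4 : ℝ) < 1 by norm_num))
  filter_upwards [e1, eventually_ge_atTop 1] with N e1 hN
  have hN0 : (0 : ℝ) < N := by exact_mod_cast hN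
  have hlt : c N + m N < N := by
    rw [div_lt_iff₀ hN0, one_mul] at e1
    exact_mod_cast e1
  have hs : √(N : ℝ) = Real.exp (Real.log N / 2) := by
    rw [← Real.log_sqrt hN0.le, Real.exp_log (Real.sqrt_pos.2 hN0)]
  rw [tm_exp N (c N) (m N) hlt, hs, ← Real.exp_add, ← Real.exp_add]
  congr 1
  unfold expo
  have q1 : LL (1 / 4) = -LL (3 / 4) := LL_quarter
  have q2 : LL (1 / 2) = 0 := LL_half
  rw [q1, q2]
  push_cast
  ring

end Pool.Agent.W719.BS
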