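import Pool.Agent.W719.BS.Alg

set_option autoImplicit false

namespace Pool.Agent.W719.BS

open Matrix Finset Filter Topology Pool.Agent.H550R3.Jones
open scoped Kronecker

theorem v0_ne (N : ℕ) : v0 N ≠ 0 := Complex.exp_ne_zero _

theorem br_eq_zero (v : ℂ) (hv : v ≠ 0) (n : ℕ) (h : br v n = 0) : v ^ (2 * n) = 1 := by
  unfold br at h
  have h1 : v ^ (n : ℤ) = v ^ (-(n : ℤ)) := sub_eq_zero.mp h
  rw [_root_.zpow_neg, zpow_natCast] at h1
  have hn : v ^ n ≠ 0 := pow_ne_zero _ hv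
  have h2 : v ^ n * v ^ n = 1 := by
    nth_rewrite 1 [h1]
    exact inv_mul_cancel₀ hn
  rw [two_mul, pow_add]; exact h2

theorem gen_of_norm (u : ℂ) (hu : 1 < ‖u‖) : Gen u := by
  have h0 : u ≠ 0 := by rintro rfl; simp at hu; linarith
  refine ⟨h0, fun n hn h => ?_⟩
  have h1 := br_eq_zero (u ^ 2) (pow_ne_zero 2 h0) n h
  have h2 : ‖(u ^ 2) ^ (2 * n)‖ = 1 := by rw [h1]; simp
  rw [norm_pow, norm_pow, ← pow_mul] at h2
  have h3 : 1 < ‖u‖ ^ (2 * (2 * n)) := one_lt_pow₀ hu (by omega)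
  linarith

/-- a sequence of generic points tending to `v0 N` -/
theorem gen_seq (N : ℕ) : ∃ u : ℕ → ℂ, (∀ k, Gen (u k)) ∧
    Tendsto (fun k => u k ^ 2) atTop (𝓝 (v0 N)) := by
  set u0 : ℂ := Complex.exp (Real.pi * Complex.I / (2 * N)) with hu0
  have hn : ‖u0‖ = 1 := by
    have : (Real.pi * Complex.I / (2 * N) : ℂ) = ((Real.pi / (2 * N) : ℝ) : ℂ) * Complex.I := by
      push_cast; ring
    rw [hu0, this, Complex.norm_exp_ofReal_mul_I]
  have hsq : u0 ^ 2 = v0 N := by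
    rw [hu0, v0, ← Complex.exp_nat_mul]; congr 1
    push_cast; field_simp
  refine ⟨fun k => ((1 + 1 / ((k : ℝ) + 1) : ℝ) : ℂ) * u0, fun k => ?_, ?_⟩
  · apply gen_of_norm
    have hp : (0 : ℝ) < 1 / ((k : ℝ) + 1) := by positivity
    rw [norm_mul, hn, mul_one, Complex.norm_real, Real.norm_eq_abs, abs_of_pos (by linarith)]
    linarith
  · rw [← hsq]
    have h1 : Tendsto (fun k : ℕ => (1 + 1 / ((k : ℝ) + 1) : ℝ)) atTop (𝓝 (1 + 0)) :=
      tendsto_const_nhds.add tendsto_one_div_add_atTop_nhds_zero_nat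
    rw [add_zero] at h1
    have h2 : Tendsto (fun k : ℕ => ((1 + 1 / ((k : ℝ) + 1) : ℝ) : ℂ)) atTop (𝓝 ((1 : ℝ) : ℂ)) :=
      (Complex.continuous_ofReal.tendsto 1).comp h1
    have h3 := (h2.mul_const u0).pow 2
    simpa using h3

theorem UU_v0 (N : ℕ) (hN : 0 < N) (c : ℕ) : UU N (v0 N) c = 2 * c + 1 := by
  have hN' : (N : ℂ) ≠ 0 := by exact_mod_cast hN.ne'
  have h1 : (v0 N) ^ (N : ℤ) = -1 := by
    rw [zpow_natCast, v0, ← Complex.exp_nat_mul, mul_div_cancel₀ _ hN']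
    exact Complex.exp_pi_mul_I
  unfold UU
  have : ∀ j ∈ range (2 * c + 1), (v0 N) ^ ((N : ℤ) * (2 * c - 2 * (j : ℤ))) = 1 := by
    intro j _
    rw [_root_.zpow_mul, h1]
    exact Even.neg_one_zpow ⟨(c : ℤ) - j, by ring⟩
  rw [sum_congr rfl this]
  simp

theorem UU_cont (N : ℕ) (c : ℕ) : ContinuousAt (fun v => UU N v c) (v0 N) := by
  unfold UU
  refine tendsto_finsetSum _ fun j _ => ?_
  exact continuousAt_zpow₀ _ _ (Or.inl (v0_ne N))

theorem prod_cont (hC : S_CONT) (w0 : List Piece) (N : ℕ) (h : 0 < N) (w : List Piece) (c : ℕ)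
    (hc : c < N) : ContinuousAt (fun v => (w.map (eig N v c)).prod) (v0 N) := by
  induction w with
  | nil => simpa using continuousAt_const
  | cons p w ih =>
    simp only [List.map_cons, List.prod_cons]
    exact ((hC w0 N h).2 c hc p).mul ih

theorem JL_v0 (hROT : S_ROT) (hVEC : S_VEC) (hP : S_KAPP) (hN : S_KAPN) (hB : S_BELT)
    (hT : S_TR) (hC : S_CONT) (w : List Piece) (N : ℕ) (h : 0 < N) :
    JL w N (v0 N) = (v0 N) ^ (-(2 * ((N : ℤ) ^ 2 - 1))) *
      ∑ c ∈ range N, (2 * c + 1) * (w.map (eig N (v0 N) c)).prod := by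
  obtain ⟨u, hu, hlim⟩ := gen_seq N
  have h1 : Tendsto (fun k => JL w N (u k ^ 2)) atTop (𝓝 (JL w N (v0 N))) :=
    ((hC w N h).1.tendsto).comp hlim
  have hcont : ContinuousAt (fun v => v ^ (-(2 * ((N : ℤ) ^ 2 - 1))) *
      ∑ c ∈ range N, UU N v c * (w.map (eig N v c)).prod) (v0 N) := by
    refine (continuousAt_zpow₀ _ _ (Or.inl (v0_ne N))).mul ?_
    refine tendsto_finsetSum _ fun c hc => ?_
    exact (UU_cont N c).mul (prod_cont hC w N h w c (mem_range.mp hc))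
  have h2 := hcont.tendsto.comp hlim
  have h3 : (fun k => JL w N (u k ^ 2)) = (fun v => v ^ (-(2 * ((N : ℤ) ^ 2 - 1))) *
      ∑ c ∈ range N, UU N v c * (w.map (eig N v c)).prod) ∘ (fun k => u k ^ 2) := by
    funext k
    exact JL_gen hROT hVEC hP hN hB hT (u k) (hu k) N h w
  rw [h3] at h1
  have h4 := tendsto_nhds_unique h1 h2
  rw [h4]
  congr 1
  refine sum_congr rfl fun c _ => ?_
  rw [UU_v0 N h]

/-! ## the eigenvalues at `v0` -/

theorem v0_pow_N (N : ℕ) (hN : 0 < N) : v0 N ^ N = -1 := by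
  have hN' : (N : ℂ) ≠ 0 := by exact_mod_cast hN.ne'
  rw [v0, ← Complex.exp_nat_mul, mul_div_cancel₀ _ hN']
  exact Complex.exp_pi_mul_I

theorem v0_conj (N : ℕ) : (starRingEnd ℂ) (v0 N) = (v0 N)⁻¹ := by
  unfold v0
  rw [← Complex.exp_conj, ← Complex.exp_neg]
  congr 1
  simp [neg_div]

theorem v0_zpow (N : ℕ) (z : ℤ) : v0 N ^ z = Complex.exp (Real.pi * Complex.I * (z / N)) := by
  rw [v0, ← Complex.exp_int_mul]; congr 1; ring

theorem br_v0 (N : ℕ) (z : ℤ) :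
    br (v0 N) z = Complex.I * ((2 * Real.sin (Real.pi * z / N) : ℝ) : ℂ) := by
  unfold br
  rw [v0_zpow, v0_zpow]
  have h1 : Real.pi * Complex.I * ((z : ℂ) / N) = ((Real.pi * z / N : ℝ) : ℂ) * Complex.I := by
    push_cast; ring
  have h2 : Real.pi * Complex.I * (((-z : ℤ) : ℂ) / N) =
      ((-(Real.pi * z / N) : ℝ) : ℂ) * Complex.I := by
    push_cast; ring
  rw [h1, h2, Complex.exp_mul_I, Complex.exp_mul_I, ← Complex.ofReal_cos, ← Complex.ofReal_sin,
    ← Complex.ofReal_cos, ← Complex.ofReal_sin, Real.cos_neg, Real.sin_neg]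
  push_cast; ring

theorem brf_v0 (N n : ℕ) : brf (v0 N) n = Complex.I ^ n * (D N n : ℂ) := by
  unfold brf D
  rw [Complex.ofReal_prod]
  induction n with
  | zero => simp
  | succ n ih =>
    rw [prod_range_succ, prod_range_succ, ih, br_v0, pow_succ]
    push_cast; ring

theorem D_pos (N n : ℕ) (h : n < N) : 0 < D N n := by
  unfold D
  refine prod_pos fun j hj => ?_
  have hj := mem_range.mp hj
  have hN : (0 : ℝ) < N := by exact_mod_cast (by omega : 0 < N)
  have : 0 < Real.sin (Real.pi * (j + 1) / N) := by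
    apply Real.sin_pos_of_pos_of_lt_pi
    · positivity
    · rw [div_lt_iff₀ hN]
      have : ((j : ℝ) + 1) < N := by exact_mod_cast (by omega : j + 1 < N)
      exact mul_lt_mul_of_pos_left this Real.pi_pos
  positivity

end Pool.Agent.W719.BS
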