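import Pool.Agent.W719.BS.V0
import Pool.Agent.H776R3.GapVol.Sine

set_option autoImplicit false

namespace Pool.Agent.W719.BS

open Matrix Finset Filter Topology Pool.Agent.H550R3.Jones
open scoped Kronecker

theorem D_top (N : ℕ) (h : 1 ≤ N) : D N (N - 1) = N := by
  refine Eq.trans ?_ (GapVol.prod_sin N h)
  unfold D
  refine prod_congr rfl fun j _ => ?_
  push_cast; rfl

theorem D_refl (N a b : ℕ) (h : a + b + 1 = N) : D N a * D N b = N := by
  have h1 : N - 1 = a + b := by omega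
  rw [← D_top N (by omega), h1]
  unfold D
  rw [prod_range_add]
  congr 1
  rw [← prod_range_reflect]
  refine prod_congr rfl fun j hj => ?_
  have hj := mem_range.mp hj
  congr 1
  have hN : (N : ℝ) ≠ 0 := by exact_mod_cast (by omega : N ≠ 0)
  have e : Real.pi * ((b - 1 - j : ℕ) + 1) / (N : ℝ) =
      Real.pi - Real.pi * (((a + j : ℕ) : ℝ) + 1) / N := by
    have e1 : ((b - 1 - j : ℕ) : ℝ) = b - 1 - j := by
      rw [Nat.cast_sub (by omega), Nat.cast_sub (by omega)]; simp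
    have e2 : (N : ℝ) = a + b + 1 := by rw [← h]; push_cast; ring
    rw [e1]
    field_simp
    rw [e2]; push_cast; ring
  rw [e, Real.sin_pi_sub]

theorem kapP_v0 (N c : ℕ) (h : c < N) :
    kapP N (v0 N) c = (-1) ^ N * Complex.I ^ c * v0 N ^ (1 - ((c * (c + 1) / 2 : ℕ) : ℤ)) *
      (S N c : ℂ) := by
  have hN : 0 < N := by omega
  have hv := v0_ne N
  have hvN := v0_pow_N N hN
  have hI : Complex.I ≠ 0 := Complex.I_ne_zero
  have hD : ∀ n, n < N → (D N n : ℂ) ≠ 0 := fun n hn => by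
    exact_mod_cast (D_pos N n hn).ne'
  unfold kapP
  have hterm : ∀ m ∈ range (N - c), (brf (v0 N) (c + m) / (brf (v0 N) c * brf (v0 N) m)) *
      (brf (v0 N) (N - 1 - m) / (brf (v0 N) c * brf (v0 N) (N - 1 - m - c))) *
      v0 N ^ (-(2 * (m : ℤ) * N)) = ((((D N (c + m) / D N m) ^ 2) / D N c ^ 2 : ℝ) : ℂ) := by
    intro m hm
    have hm := mem_range.mp hm
    have e1 : v0 N ^ (-(2 * (m : ℤ) * N)) = 1 := by
      have : (-(2 * (m : ℤ) * N)) = (N : ℤ) * (-(2 * (m : ℤ))) := by ring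
      rw [this, _root_.zpow_mul, zpow_natCast, hvN]
      exact Even.neg_one_zpow ⟨-(m : ℤ), by ring⟩
    have e2 := D_refl N m (N - 1 - m) (by omega)
    have e3 := D_refl N (c + m) (N - 1 - m - c) (by omega)
    have hm0 : D N m ≠ 0 := (D_pos N m (by omega)).ne'
    have hcm0 : D N (c + m) ≠ 0 := (D_pos N _ (by omega)).ne'
    have hN0 : (N : ℝ) ≠ 0 := by exact_mod_cast hN.ne'
    have e4 : D N (N - 1 - m) = N / D N m := by field_simp; linarith
    have e5 : D N (N - 1 - m - c) = N / D N (c + m) := by field_simp; linarith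
    rw [e1, brf_v0, brf_v0, brf_v0, brf_v0, brf_v0, e4, e5]
    have hc := hD c h
    have hm1 : (D N m : ℂ) ≠ 0 := by exact_mod_cast hm0
    have hcm1 : (D N (c + m) : ℂ) ≠ 0 := by exact_mod_cast hcm0
    have hN1 : (N : ℂ) ≠ 0 := by exact_mod_cast hN0
    have hi : Complex.I ^ (N - 1 - m) = Complex.I ^ c * Complex.I ^ (N - 1 - m - c) := by
      rw [← pow_add]; congr 1; omega
    rw [hi, pow_add]
    push_cast
    have hic := pow_ne_zero c hI
    have him := pow_ne_zero m hI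
    have him2 := pow_ne_zero (N - 1 - m - c) hI
    field_simp
  rw [sum_congr rfl hterm, brf_v0, ← Complex.ofReal_sum, ← Finset.sum_div]
  have e6 : v0 N ^ (-((N : ℤ) - 1) * (c + 1) - ((c * (c + 3) / 2 : ℕ) : ℤ)) =
      (-1) ^ (c + 1) * v0 N ^ (1 - ((c * (c + 1) / 2 : ℕ) : ℤ)) := by
    have h2 : c * (c + 3) / 2 = c * (c + 1) / 2 + c := by
      have : c * (c + 3) = c * (c + 1) + c * 2 := by ring
      rw [this, Nat.add_mul_div_right _ _ (by norm_num)]
    have h3 : (-((N : ℤ) - 1) * (c + 1) - ((c * (c + 3) / 2 : ℕ) : ℤ)) =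
        (N : ℤ) * (-((c : ℤ) + 1)) + (1 - ((c * (c + 1) / 2 : ℕ) : ℤ)) := by
      rw [h2]; push_cast; ring
    rw [h3, zpow_add₀ hv, _root_.zpow_mul, zpow_natCast, hvN]
    congr 1
    rw [_root_.zpow_neg]
    have : ((-1 : ℂ) ^ ((c : ℤ) + 1)) = (-1) ^ (c + 1) := by
      have : ((c : ℤ) + 1) = ((c + 1 : ℕ) : ℤ) := by push_cast; ring
      rw [this, zpow_natCast]
    rw [this, ← inv_pow]; norm_num
  rw [e6]
  have e7 : ((-1 : ℂ)) ^ (N - 1 - c) * (-1) ^ (c + 1) = (-1) ^ N := by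
    rw [← pow_add]; congr 1; omega
  have hc := hD c h
  unfold S
  push_cast
  rw [← e7]
  field_simp

theorem brf_conj (N n : ℕ) : brf (v0 N)⁻¹ n = (starRingEnd ℂ) (brf (v0 N) n) := by
  unfold brf br
  rw [map_prod]
  refine prod_congr rfl fun j _ => ?_
  rw [map_sub, map_zpow₀, map_zpow₀, v0_conj]

theorem kapP_conj (N c : ℕ) : kapP N (v0 N)⁻¹ c = (starRingEnd ℂ) (kapP N (v0 N) c) := by
  unfold kapP
  simp only [brf_conj, map_mul, map_sum, map_div₀, map_zpow₀, map_pow, map_neg, map_one, v0_conj]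

end Pool.Agent.W719.BS
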